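import Pool.Agent.Q105.NV.Fin

/-!
# The properties of the functors in a short form
-/

set_option autoImplicit false
set_option linter.unusedSectionVars false

namespace Pool.Agent.Q105.NV

open Monoid Pool.Agent.Q143.MV Pool.Agent.Q262.NV

/-- A surjective homomorphism `π` from the group `M` to the free group on `X`. -/
structure Sj (X M : Type) [Group M] where
  /-- the homomorphism -/
  π : M →* FreeGroup X
  surj : Function.Surjective π

namespace Sj

variable {X M M' : Type} [Group M] [Group M'] (S : Sj X M) (S' : Sj X M')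

/-- The kernel of `π`. -/
def N : Type := S.π.ker

instance : Group S.N := inferInstanceAs (Group S.π.ker)

/-- The inclusion of the kernel. -/
def incl : S.N →* M := S.π.ker.subtype

/-- The conjugation with `t` on the kernel. -/
def cj (t : M) : S.N →* S.N := cjk S.π t

/-- The homomorphism of the kernels that is induced by a homomorphism over the free group. -/
def res (f : M →* M') (h : S'.π.comp f = S.π) : S.N →* S'.N := kmap f h

/-- `t` is a lift of the basis of the free group. -/
def IsLift (t : X → M) : Prop := ∀ x, S.π (t x) = FreeGroup.of x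

end Sj

/-- The sum of the elements `c x - t x • c x`, where `t x` acts by conjugation on the kernel. -/
noncomputable def wg (H : GFun) {X M : Type} [Group M] (S : Sj X M) (t : X → M)
    (c : X →₀ H.obj S.N) : H.obj S.N :=
  c.sum (fun x a => a - H.map (S.cj (t x)) a)

/-- Exactness at the kernel: an element of `H(N)` dies in `H(M)` if and only if it is a sum of elements
`c x - t x • c x`. -/
def ExN (H : GFun) : Prop :=
  ∀ (X M : Type) [Group M] (S : Sj X M) (t : X → M), S.IsLift t → ∀ y : H.obj S.N,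
    H.map S.incl y = 0 ↔ ∃ c, wg H S t c = y

/-- Families of maps `H'(M) → ⨁_X H(N)`, for surjective homomorphisms `M → F(X)` with kernel `N`. -/
def BMap (H' H : GFun) : Type 1 :=
  ∀ (X M : Type) [Group M] (S : Sj X M), H'.obj M → (X →₀ H.obj S.N)

section

variable {H' H : GFun} (d : BMap H' H)

/-- additivity -/
def BAdd : Prop := ∀ (X M : Type) [Group M] (S : Sj X M) (z z' : H'.obj M),
  d X M S (z + z') = d X M S z + d X M S z'

/-- naturality for homomorphisms over the free group -/
def BNat : Prop := ∀ (X M M' : Type) [Group M] [Group M'] (S : Sj X M) (S' : Sj X M')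
  (f : M →* M') (h : S'.π.comp f = S.π) (z : H'.obj M) (x : X),
    d X M' S' (H'.map f z) x = H.map (S.res S' f h) (d X M S z x)

/-- exactness at `H'(M)` -/
def ExM : Prop := ∀ (X M : Type) [Group M] (S : Sj X M) (z : H'.obj M),
  d X M S z = 0 ↔ ∃ y, H'.map S.incl y = z

/-- exactness at `⨁_X H(N)` -/
def ExB : Prop := ∀ (X M : Type) [Group M] (S : Sj X M) (t : X → M), S.IsLift t →
  ∀ c, wg H S t c = 0 ↔ ∃ z, d X M S z = c

/-- The boundary maps are additive and natural, and the sequences are exact. -/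
def IsBoundary : Prop := BAdd d ∧ BNat d ∧ ExM d ∧ ExB d

end

/-- Exact sequences for surjective homomorphisms from `M` to the free group on `X` with kernel `N`:
`⨁_X H'(N) → H'(N) → H'(M) → ⨁_X H(N) → H(N)`, and the same for `E'` and `E`, natural, and compatible
with the natural transformations. -/
def FreeExact {H' E' H E : GFun} (β : GNat H' E') (α : GNat H E) : Prop :=
  ExN H' ∧ ExN E' ∧ ∃ (d : BMap H' H) (e : BMap E' E), IsBoundary d ∧ IsBoundary e ∧
    ∀ (X M : Type) [Group M] (S : Sj X M) (z : H'.obj M) (x : X),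
      α.app S.N (d X M S z x) = e X M S (β.app M z) x

theorem wg_eq (H : GFun) {X M : Type} [Group M] (π : M →* FreeGroup X)
    (hπ : Function.Surjective π) (t : X → M) (c : X →₀ H.obj π.ker) :
    wg H (⟨π, hπ⟩ : Sj X M) t c = wang H π t c := by
  unfold wang
  rw [Finsupp.liftAddHom_apply]
  rfl

theorem ExN.coinv {H : GFun} (h : ExN H) : Coinv H := by
  intro X M _ π t hπ ht y
  have h1 := h X M ⟨π, hπ⟩ t ht y
  have h2 : H.map π.ker.subtype y = 0 ↔ ∃ c, wg H (⟨π, hπ⟩ : Sj X M) t c = y := h1
  rw [h2]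
  constructor
  · rintro ⟨c, hc⟩
    exact ⟨c, (wg_eq H π hπ t c).symm.trans hc⟩
  · rintro ⟨c, hc⟩
    exact ⟨c, (wg_eq H π hπ t c).trans hc⟩

/-- the boundary maps in the other form -/
noncomputable def toBd {H' H : GFun} (d : BMap H' H) (hd : IsBoundary d) : Bd H' H where
  d := fun {X M} _ π => by
    classical
    exact if hπ : Function.Surjective π then
      AddMonoidHom.mk' (d X M ⟨π, hπ⟩) (hd.1 X M ⟨π, hπ⟩) else 0
  nat := by
    intro X M M' _ _ π π' f h hπ z x
    have hπ' : Function.Surjective π' := by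
      intro y
      obtain ⟨m, rfl⟩ := hπ y
      exact ⟨f m, DFunLike.congr_fun h m⟩
    rw [dif_pos hπ, dif_pos hπ']
    exact hd.2.1 X M M' ⟨π, hπ⟩ ⟨π', hπ'⟩ f h z x
  ex1 := by
    intro X M _ π hπ z
    rw [dif_pos hπ]
    exact hd.2.2.1 X M ⟨π, hπ⟩ z
  ex2 := by
    intro X M _ π t hπ ht c
    rw [dif_pos hπ, ← wg_eq H π hπ t c]
    exact hd.2.2.2 X M ⟨π, hπ⟩ t ht c

theorem toBd_d {H' H : GFun} (d : BMap H' H) (hd : IsBoundary d) {X M : Type} [Group M]
    (π : M →* FreeGroup X) (hπ : Function.Surjective π) (z : H'.obj M) :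
    (toBd d hd).d π z = d X M ⟨π, hπ⟩ z := by
  have h1 : (toBd d hd).d π = AddMonoidHom.mk' (d X M ⟨π, hπ⟩) (hd.1 X M ⟨π, hπ⟩) := dif_pos hπ
  exact DFunLike.congr_fun h1 z

theorem FreeExact.seq {H' E' H E : GFun} {β : GNat H' E'} {α : GNat H E} (h : FreeExact β α) :
    FreeSeq β α := by
  obtain ⟨h1, h2, d, e, hd, he, hde⟩ := h
  refine ⟨h1.coinv, h2.coinv, toBd d hd, toBd e he, fun X M _ π hπ z x => ?_⟩
  have h3 := DFunLike.congr_fun (toBd_d d hd π hπ z) x
  have h4 := DFunLike.congr_fun (toBd_d e he π hπ (β.app M z)) x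
  exact (congrArg (α.app π.ker) h3).trans ((hde X M ⟨π, hπ⟩ z x).trans h4.symm)

section rel

variable {H E : GFun} (β : GNat H E) {V : Type} {P : V → Type} [∀ v, Group (P v)] {N : Type}
  [Group N] (j : ∀ v, P v →* N)

/-- Every element of `E(N)` is the sum of the image of an element of `H(N)` and of finitely many images
of elements of `E(P v)`. -/
def RelSurj : Prop := ∀ c : E.obj N, ∃ (a : Π₀ v, E.obj (P v)) (t : H.obj N),
  sm E j a + β.app N t = c

/-- If the image of `t` in `E(N)` is the sum of the images of the elements `a v` of `E(P v)`, then `t` is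
the sum of the images of elements of `H(P v)` which are mapped to the `a v`. -/
def RelExact : Prop := ∀ (a : Π₀ v, E.obj (P v)) (t : H.obj N), sm E j a = β.app N t →
  ∃ h : Π₀ v, H.obj (P v), sm H j h = t ∧ ∀ v, β.app (P v) (h v) = a v

/-- The natural transformation is bijective relative to the family `j v : P v → N`. -/
def RelIso : Prop := RelSurj β j ∧ RelExact β j

theorem relIso_iff : RelIso β j ↔ RelBij β j := Iff.rfl

end rel

section fp

variable {Γ : Type} [Group Γ] {V Y : Type} (P : V → Subgroup Γ) (y : Y → Γ)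

/-- `N` is the internal free product of the subgroups `P v` and of the free group with basis `y`:
homomorphisms of the groups `P v` to a group `T` and elements `s i` of `T` extend uniquely to a
homomorphism from `N` to `T` that maps `y i` to `s i`. -/
def IsFP (N : Subgroup Γ) : Prop :=
  (∀ v, P v ≤ N) ∧ (∀ i, y i ∈ N) ∧
    ∀ (T : Type) [Group T] (f : ∀ v, P v →* T) (s : Y → T), ∃! F : N →* T,
      (∀ (v : V) (p : Γ) (hp : p ∈ P v) (hN : p ∈ N), F ⟨p, hN⟩ = f v ⟨p, hp⟩) ∧
        ∀ (i : Y) (hN : y i ∈ N), F ⟨y i, hN⟩ = s i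

variable {P y}

/-- the isomorphism with the free product -/
theorem IsFP.iso {N : Subgroup Γ} (h : IsFP P y N) :
    ∃ e : Coprod (CoprodI (fun v => P v)) (FreeGroup Y) ≃* N,
      ∀ v (p : P v), ((e (Coprod.inl (CoprodI.of p)) : N) : Γ) = p := by
  obtain ⟨h1, h2, h3⟩ := h
  let C : Coprod (CoprodI (fun v => P v)) (FreeGroup Y) →* N :=
    Coprod.lift (CoprodI.lift (fun v => Subgroup.inclusion (h1 v)))
      (FreeGroup.lift (fun i => ⟨y i, h2 i⟩))
  have hC1 : ∀ v (p : P v), C (Coprod.inl (CoprodI.of p)) = ⟨p, h1 v p.2⟩ := by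
    intro v p
    change Coprod.lift _ _ (Coprod.inl _) = _
    rw [Coprod.lift_apply_inl, CoprodI.lift_of]
    rfl
  have hC2 : ∀ i, C (Coprod.inr (FreeGroup.of i)) = ⟨y i, h2 i⟩ := by
    intro i
    change Coprod.lift _ _ (Coprod.inr _) = _
    rw [Coprod.lift_apply_inr, FreeGroup.lift_apply_of]
  obtain ⟨F, ⟨hF1, hF2⟩, -⟩ := h3 (Coprod (CoprodI (fun v => P v)) (FreeGroup Y))
    (fun v => Coprod.inl.comp (CoprodI.of (M := fun v => P v) (i := v)))
    (fun i => Coprod.inr (FreeGroup.of i))
  have hFC : F.comp C = MonoidHom.id _ := by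
    refine Coprod.hom_ext ?_ ?_
    · refine CoprodI.ext_hom _ _ (fun v => ?_)
      ext p
      change F (C (Coprod.inl (CoprodI.of p))) =
        Coprod.inl (CoprodI.of (M := fun v => P v) (i := v) p)
      rw [hC1, hF1 v p p.2]
      rfl
    · ext i
      change F (C (Coprod.inr (FreeGroup.of i))) = Coprod.inr (FreeGroup.of i)
      rw [hC2, hF2]
  have hCF : C.comp F = MonoidHom.id N := by
    obtain ⟨G, -, hG⟩ := h3 N (fun v => Subgroup.inclusion (h1 v)) (fun i => ⟨y i, h2 i⟩)
    have e1 := hG (C.comp F) ⟨fun v p hp hN => by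
      rw [MonoidHom.comp_apply, hF1 v p hp hN]
      exact hC1 v ⟨p, hp⟩, fun i hN => by
      rw [MonoidHom.comp_apply, hF2 i hN]
      exact hC2 i⟩
    have e2 := hG (MonoidHom.id N) ⟨fun v p hp hN => rfl, fun i hN => rfl⟩
    rw [e1, e2]
  exact ⟨MulEquiv.mk' ⟨C, F, fun x => DFunLike.congr_fun hFC x, fun x => DFunLike.congr_fun hCF x⟩
    (fun x y => map_mul C x y), fun v p => congrArg Subtype.val (hC1 v p)⟩

theorem relBij_fp {H E : GFun} {α : GNat H E} (hF : FreeSum H) (hF' : FreeSum E) (hc : Cont H)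
    (hc' : Cont E) (hZ : Function.Bijective (α.app (Multiplicative ℤ))) {L : V → Subgroup Γ}
    {N : Subgroup Γ} (hN : IsFP (fun v => L v ⊓ N) y N) :
    RelBij α (fun v => inc (L v) N) := by
  obtain ⟨h1, h2⟩ := pt_bij hZ
  obtain ⟨h3, h4⟩ := free_bij hF hF' hc hc' hZ Y
  have h5 : RelBij (P := fun v => (L v ⊓ N : Subgroup Γ)) α (fun v => (CoprodI.of (i := v) : _ →*
      CoprodI (fun v => (L v ⊓ N : Subgroup Γ)))) := relBij_coprodI hF hF' hc hc' h1 h2
  have h6 := relBij_coprod (B := FreeGroup Y) hF hF' h5 h3 h4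
  obtain ⟨e, he⟩ := hN.iso
  exact h6.congr e (fun v => MulEquiv.refl _) (fun v p => Subtype.ext (he v p))

end fp

end Pool.Agent.Q105.NV
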