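import Pool.Agent.Q105.NV.Step

/-!
# Chains of extensions by free groups
-/

set_option autoImplicit false
set_option linter.unusedSectionVars false

namespace Pool.Agent.Q105.NV

open Pool.Agent.Q143.MV Pool.Agent.Q262.NV

theorem inj_iso {H E : GFun} (α : GNat H E) {G G' : Type} [Group G] [Group G'] (e : G ≃* G')
    (h : Inj α G') : Inj α G :=
  inj_retract α e.toMonoidHom e.symm.toMonoidHom (fun g => e.symm_apply_apply g) h

section congr

variable {V : Type} {P P' : V → Type} [∀ v, Group (P v)] [∀ v, Group (P' v)] {N N' : Type}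
  [Group N] [Group N'] {j : ∀ v, P v →* N} {j' : ∀ v, P' v →* N'}

theorem sm_map (H : GFun) (k : N →* N') (e : ∀ v, P v →* P' v)
    (h : ∀ v p, k (j v p) = j' v (e v p)) (a : Π₀ v, H.obj (P v)) :
    H.map k (sm H j a) = sm H j' (mapD (fun v => H.hom (e v)) a) := by
  change H.hom k (sumD (fun v => H.hom (j v)) a) = sumD (fun v => H.hom (j' v)) (mapD _ a)
  rw [hom_sumD, sumD_mapD]
  refine sumD_congr (fun v x => ?_) a
  change H.map k (H.map (j v) x) = H.map (j' v) (H.map (e v) x)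
  rw [← H.map_comp, ← H.map_comp]
  congr 1
  exact MonoidHom.ext (h v)

theorem RelBij.congr {H E : GFun} {β : GNat H E} (hr : RelBij β j) (k : N ≃* N')
    (e : ∀ v, P v ≃* P' v) (h : ∀ v p, k (j v p) = j' v (e v p)) : RelBij β j' := by
  have hk : ∀ (K : GFun) (x : K.obj N'), K.map k.toMonoidHom (K.map k.symm.toMonoidHom x) = x := by
    intro K x
    rw [← K.map_comp]
    have h1 : k.toMonoidHom.comp k.symm.toMonoidHom = MonoidHom.id N' :=
      MonoidHom.ext fun y => k.apply_symm_apply y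
    rw [h1, K.map_id]
  have he : ∀ (K : GFun) (v : V) (x : K.obj (P' v)),
      K.map (e v).toMonoidHom (K.map (e v).symm.toMonoidHom x) = x := by
    intro K v x
    rw [← K.map_comp]
    have h1 : (e v).toMonoidHom.comp (e v).symm.toMonoidHom = MonoidHom.id (P' v) :=
      MonoidHom.ext fun y => (e v).apply_symm_apply y
    rw [h1, K.map_id]
  have h' : ∀ v p, k.symm (j' v p) = j v ((e v).symm p) := by
    intro v p
    apply k.injective
    rw [k.apply_symm_apply, h, (e v).apply_symm_apply]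
  constructor
  · intro c
    obtain ⟨a, t, hat⟩ := hr.1 (E.map k.symm.toMonoidHom c)
    refine ⟨mapD (fun v => E.hom (e v).toMonoidHom) a, H.map k.toMonoidHom t, ?_⟩
    rw [← sm_map E k.toMonoidHom (fun v => (e v).toMonoidHom) h, β.nat, ← E.map_add, hat, hk]
  · intro a t hat
    obtain ⟨b, hb, hb'⟩ := hr.2 (mapD (fun v => E.hom (e v).symm.toMonoidHom) a)
      (H.map k.symm.toMonoidHom t) (by
        rw [← sm_map E k.symm.toMonoidHom (fun v => (e v).symm.toMonoidHom) h', hat, β.nat])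
    refine ⟨mapD (fun v => H.hom (e v).toMonoidHom) b, ?_, fun v => ?_⟩
    · rw [← sm_map H k.toMonoidHom (fun v => (e v).toMonoidHom) h, hb, hk]
    · change β.app (P' v) (H.map (e v).toMonoidHom (b v)) = a v
      rw [β.nat, hb']
      exact he E v (a v)

end congr

section chain

variable {Γ : Type} [Group Γ]

/-- The inclusion of `L ∩ M` in `M`. -/
def inc (L M : Subgroup Γ) : (L ⊓ M : Subgroup Γ) →* M := Subgroup.inclusion inf_le_right

/-- `M` is normal in `M'` with free quotient: `M` is the kernel of a surjective homomorphism from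
`M'` to a free group. -/
def FreeStep (M M' : Subgroup Γ) : Prop :=
  M ≤ M' ∧ ∃ (X : Type) (π : M' →* FreeGroup X), Function.Surjective π ∧
    ∀ x : M', π x = 1 ↔ (x : Γ) ∈ M

/-- the step for subgroups -/
theorem step_sub {H' E' H E : GFun} {β : GNat H' E'} {α : GNat H E} (hS : FreeSeq β α)
    (hcH : Coinv H) (hcE : Coinv E) (hiE' : InnerTriv E') (hiH : InnerTriv H)
    (hiE : InnerTriv E) {V : Type} {L : V → Subgroup Γ} {M M' : Subgroup Γ}
    (hM : FreeStep M M') (hL : ∀ v, ∀ γ ∈ M', ∃ l ∈ L v, ∃ n ∈ M, γ = l * n)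
    (hβ : RelBij β (fun v => inc (L v) M)) (hα : RelBij α (fun v => inc (L v) M))
    (hI : ∀ v, Inj α (L v ⊓ M : Subgroup Γ)) (hI' : ∀ v, Inj α (L v ⊓ M' : Subgroup Γ)) :
    RelBij β (fun v => inc (L v) M') := by
  obtain ⟨hle, X, π, hπ, hker⟩ := hM
  let e : M ≃* π.ker :=
    { toFun := fun m => ⟨⟨m, hle m.2⟩, (hker _).2 m.2⟩
      invFun := fun x => ⟨((x : M') : Γ), (hker _).1 x.2⟩
      left_inv := fun m => rfl
      right_inv := fun x => rfl
      map_mul' := fun m m' => rfl }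
  let e' : ∀ v, (L v ⊓ M : Subgroup Γ) ≃* (π.comp (inc (L v) M')).ker := fun v =>
    { toFun := fun m => ⟨⟨m, m.2.1, hle m.2.2⟩, (hker _).2 m.2.2⟩
      invFun := fun x => ⟨((x : (L v ⊓ M' : Subgroup Γ)) : Γ), (x : (L v ⊓ M' : Subgroup Γ)).2.1,
        (hker (inc (L v) M' x)).1 x.2⟩
      left_inv := fun m => rfl
      right_inv := fun x => rfl
      map_mul' := fun m m' => rfl }
  refine step (π := π) hS hcH hcE hiE' hiH hiE hπ ?_ (hβ.congr e e' (fun v p => rfl))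
    (hα.congr e e' (fun v p => rfl)) (fun v => inj_iso α (e' v).symm (hI v)) hI'
  intro v y
  obtain ⟨x, rfl⟩ := hπ y
  obtain ⟨l, hl, n, hn, h⟩ := hL v (x : Γ) x.2
  have hl' : l ∈ M' := by
    have h1 : l = (x : Γ) * n⁻¹ := by rw [h, mul_inv_cancel_right]
    rw [h1]
    exact mul_mem x.2 (inv_mem (hle hn))
  refine ⟨⟨l, hl, hl'⟩, ?_⟩
  change π ⟨l, hl'⟩ = π x
  have h2 : x = ⟨l, hl'⟩ * ⟨n, hle hn⟩ := Subtype.ext h
  rw [h2, map_mul, (hker ⟨n, hle hn⟩).2 hn, mul_one]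

variable {H E : ℤ → GFun} {α : ∀ n, GNat (H n) (E n)}

theorem mono_chain {M : ℕ → Subgroup Γ} {k : ℕ} (hM : ∀ i < k, FreeStep (M i) (M (i + 1))) :
    ∀ j i, i + j ≤ k → M i ≤ M (i + j) := by
  intro j
  induction j with
  | zero => exact fun i _ => le_rfl
  | succ j ih => exact fun i hi => (ih i (by omega)).trans (hM (i + j) (by omega)).1

/-- **Chains of extensions by free groups.** -/
theorem chain (hS : ∀ n, FreeSeq (α (n + 1)) (α n)) (hiH : ∀ n, InnerTriv (H n))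
    (hiE : ∀ n, InnerTriv (E n)) {V : Type} {L : V → Subgroup Γ} {M : ℕ → Subgroup Γ} {k : ℕ}
    (hM : ∀ i < k, FreeStep (M i) (M (i + 1)))
    (hL : ∀ v, ∀ γ ∈ M k, ∃ l ∈ L v, ∃ n ∈ M 0, γ = l * n)
    (hI : ∀ n v, ∀ i ≤ k, Inj (α n) (L v ⊓ M i : Subgroup Γ))
    (h0 : ∀ n, RelBij (α n) (fun v => inc (L v) (M 0))) :
    ∀ i ≤ k, M 0 ≤ M i ∧ ∀ n, RelBij (α n) (fun v => inc (L v) (M i)) := by
  intro i
  induction i with
  | zero => exact fun _ => ⟨le_rfl, h0⟩
  | succ i ih =>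
    intro hi
    obtain ⟨h1, h2⟩ := ih (by omega)
    have h3 := hM i (by omega)
    refine ⟨h1.trans h3.1, fun n => ?_⟩
    obtain ⟨m, rfl⟩ : ∃ m, n = m + 1 := ⟨n - 1, by ring⟩
    obtain ⟨m', rfl⟩ : ∃ m', m = m' + 1 := ⟨m - 1, by ring⟩
    refine step_sub (hS _) (hS m').1 (hS m').2.1 (hiE _) (hiH _) (hiE _) h3 (fun v γ hγ => ?_)
      (h2 _) (h2 _) (fun v => hI _ v i (by omega)) (fun v => hI _ v (i + 1) hi)
    obtain ⟨l, hl, n, hn, h⟩ := hL v γ (by
      have h4 := mono_chain hM (k - (i + 1)) (i + 1) (by omega)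
      rw [show i + 1 + (k - (i + 1)) = k by omega] at h4
      exact h4 hγ)
    exact ⟨l, hl, n, h1 hn, h⟩

theorem chain_inj (hS : ∀ n, FreeSeq (α (n + 1)) (α n)) (hiH : ∀ n, InnerTriv (H n))
    (hiE : ∀ n, InnerTriv (E n)) {V : Type} {L : V → Subgroup Γ} {M : ℕ → Subgroup Γ} {k : ℕ}
    (hM : ∀ i < k, FreeStep (M i) (M (i + 1)))
    (hL : ∀ v, ∀ γ ∈ M k, ∃ l ∈ L v, ∃ n ∈ M 0, γ = l * n)
    (hI : ∀ n v, ∀ i ≤ k, Inj (α n) (L v ⊓ M i : Subgroup Γ))
    (h0 : ∀ n, RelBij (α n) (fun v => inc (L v) (M 0))) (n : ℤ) :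
    Inj (α n) (M k) :=
  ((chain hS hiH hiE hM hL hI h0 k le_rfl).2 n).inj (fun v => hI n v k le_rfl)

end chain

end Pool.Agent.Q105.NV
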