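import Mathlib

/-!
# A diagram chase
-/

set_option autoImplicit false

namespace Pool.Agent.Q105.NV

section chase

variable {A₁ A₂ A₃ A₄ A₅ A₆ B₁ B₂ B₃ B₄ B₅ B₆ C₁ C₂ C₃ C₄ C₅ : Type}
  [AddCommGroup A₁] [AddCommGroup A₂] [AddCommGroup A₃] [AddCommGroup A₄] [AddCommGroup A₅]
  [AddCommGroup A₆]
  [AddCommGroup B₁] [AddCommGroup B₂] [AddCommGroup B₃] [AddCommGroup B₄] [AddCommGroup B₅]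
  [AddCommGroup B₆]
  [AddCommGroup C₁] [AddCommGroup C₂] [AddCommGroup C₃] [AddCommGroup C₄] [AddCommGroup C₅]
  {a23 : A₂ →+ A₃} {a34 : A₃ →+ A₄} {a45 : A₄ →+ A₅} {a56 : A₅ →+ A₆}
  {b12 : B₁ →+ B₂} {b23 : B₂ →+ B₃} {b34 : B₃ →+ B₄} {b45 : B₄ →+ B₅} {b56 : B₅ →+ B₆}
  {c12 : C₁ →+ C₂} {c23 : C₂ →+ C₃} {c34 : C₃ →+ C₄} {c45 : C₄ →+ C₅}
  {f2 : A₂ →+ B₂} {f3 : A₃ →+ B₃} {f4 : A₄ →+ B₄} {f5 : A₅ →+ B₅} {f6 : A₆ →+ B₆}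
  {g1 : B₁ →+ C₁} {g2 : B₂ →+ C₂} {g3 : B₃ →+ C₃} {g4 : B₄ →+ C₄} {g5 : B₅ →+ C₅}

theorem chase_surj
    (exA5 : ∀ a, a56 a = 0 → ∃ a', a45 a' = a)
    (exB4 : ∀ b, b45 b = 0 → ∃ b', b34 b' = b) (zB5 : ∀ b, b56 (b45 b) = 0)
    (zC4 : ∀ c, c45 (c34 c) = 0) (exC3 : ∀ c, c34 c = 0 → ∃ c', c23 c' = c)
    (q45 : ∀ a, f5 (a45 a) = b45 (f4 a)) (q56 : ∀ a, f6 (a56 a) = b56 (f5 a))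
    (r34 : ∀ b, g4 (b34 b) = c34 (g3 b)) (r45 : ∀ b, g5 (b45 b) = c45 (g4 b))
    (r23 : ∀ b, g3 (b23 b) = c23 (g2 b))
    (z4 : ∀ a, g4 (f4 a) = 0) (s4 : ∀ c, ∃ b, g4 b = c) (s2 : ∀ c, ∃ b, g2 b = c)
    (x5 : ∀ b, g5 b = 0 → ∃ a, f5 a = b) (i6 : ∀ a, f6 a = 0 → a = 0) :
    ∀ c, ∃ b, g3 b = c := by
  intro c
  obtain ⟨b₄, hb₄⟩ := s4 (c34 c)
  obtain ⟨a₅, ha₅⟩ := x5 (b45 b₄) (by rw [r45, hb₄, zC4])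
  obtain ⟨a₄, ha₄⟩ := exA5 a₅ (i6 _ (by rw [q56, ha₅, zB5]))
  obtain ⟨b₃, hb₃⟩ := exB4 (b₄ - f4 a₄) (by rw [map_sub, ← q45, ha₄, ha₅, sub_self])
  obtain ⟨c₂, hc₂⟩ := exC3 (c - g3 b₃) (by rw [map_sub, ← r34, hb₃, map_sub, z4, hb₄, sub_zero,
    sub_self])
  obtain ⟨b₂, hb₂⟩ := s2 c₂
  exact ⟨b23 b₂ + b₃, by rw [map_add, r23, hb₂, hc₂, sub_add_cancel]⟩

theorem chase_exact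
    (exA4 : ∀ a, a45 a = 0 → ∃ a', a34 a' = a)
    (zB4 : ∀ b, b45 (b34 b) = 0) (exB3 : ∀ b, b34 b = 0 → ∃ b', b23 b' = b)
    (zB2 : ∀ b, b23 (b12 b) = 0)
    (exC2 : ∀ c, c23 c = 0 → ∃ c', c12 c' = c)
    (q23 : ∀ a, f3 (a23 a) = b23 (f2 a)) (q34 : ∀ a, f4 (a34 a) = b34 (f3 a))
    (q45 : ∀ a, f5 (a45 a) = b45 (f4 a))
    (r12 : ∀ b, g2 (b12 b) = c12 (g1 b)) (r23 : ∀ b, g3 (b23 b) = c23 (g2 b))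
    (r34 : ∀ b, g4 (b34 b) = c34 (g3 b))
    (z3 : ∀ a, g3 (f3 a) = 0) (x4 : ∀ b, g4 b = 0 → ∃ a, f4 a = b) (i5 : ∀ a, f5 a = 0 → a = 0)
    (s1 : ∀ c, ∃ b, g1 b = c) (x2 : ∀ b, g2 b = 0 → ∃ a, f2 a = b) :
    ∀ b, g3 b = 0 → ∃ a, f3 a = b := by
  intro b hb
  obtain ⟨a₄, ha₄⟩ := x4 (b34 b) (by rw [r34, hb, map_zero])
  obtain ⟨a₃, ha₃⟩ := exA4 a₄ (i5 _ (by rw [q45, ha₄, zB4]))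
  obtain ⟨b₂, hb₂⟩ := exB3 (b - f3 a₃) (by rw [map_sub, ← q34, ha₃, ha₄, sub_self])
  obtain ⟨c₁, hc₁⟩ := exC2 (g2 b₂) (by rw [← r23, hb₂, map_sub, hb, z3, sub_zero])
  obtain ⟨b₁, hb₁⟩ := s1 c₁
  obtain ⟨a₂, ha₂⟩ := x2 (b₂ - b12 b₁) (by rw [map_sub, r12, hb₁, hc₁, sub_self])
  refine ⟨a23 a₂ + a₃, ?_⟩
  rw [map_add, q23, ha₂, map_sub, zB2, hb₂, sub_zero, sub_add_cancel]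

end chase

end Pool.Agent.Q105.NV
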