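import Pool.Agent.Q105.NV.Step

/-!
# Free products are relatively bijective families
-/

set_option autoImplicit false
set_option linter.unusedSectionVars false

namespace Pool.Agent.Q105.NV

open Monoid Pool.Agent.Q143.MV Pool.Agent.Q262.NV

/-- Every element of `H(A * B)` is the sum of an element that comes from `A` and an element that comes
from `B`. -/
def FreeSum (H : GFun) : Prop :=
  ∀ (A B : Type) [Group A] [Group B] (z : H.obj (Coprod A B)), ∃ (x : H.obj A) (y : H.obj B),
    z = H.map Coprod.inl x + H.map Coprod.inr y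

section triv

variable (H : GFun) {G G' : Type} [Group G] [Group G']

/-- the trivial homomorphism factors through the trivial group -/
theorem map_one' (x : H.obj G) :
    H.map (1 : G →* G') x = H.map (1 : PUnit →* G') (H.map (1 : G →* PUnit) x) := by
  rw [← H.map_comp]
  rfl

theorem map_pt (f : G →* G') (x : H.obj PUnit) :
    H.map f (H.map (1 : PUnit →* G) x) = H.map (1 : PUnit →* G') x := by
  rw [← H.map_comp]
  congr 1
  ext y
  exact map_one f

theorem pt_map (f : G →* G') (x : H.obj G) :
    H.map (1 : G' →* PUnit) (H.map f x) = H.map (1 : G →* PUnit) x := by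
  rw [← H.map_comp]
  rfl

theorem pt_pt (x : H.obj PUnit) :
    H.map (1 : G →* PUnit) (H.map (1 : PUnit →* G) x) = x := by
  rw [← H.map_comp]
  have h : (1 : G →* PUnit).comp (1 : PUnit →* G) = MonoidHom.id PUnit := by
    ext y
  rw [h, H.map_id]

end triv

section gen

variable {W : Type} {Q : W → Type} [∀ w, Group (Q w)] {H E : GFun} {α : GNat H E}

/-- killing the letters outside `S` -/
noncomputable def rho (Q : W → Type) [∀ w, Group (Q w)] (S : Set W) : CoprodI Q →* CoprodI Q := by
  classical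
  exact CoprodI.lift (fun w => if w ∈ S then CoprodI.of else 1)

theorem rho_in {S : Set W} {w : W} (hw : w ∈ S) (q : Q w) :
    rho Q S (CoprodI.of q) = CoprodI.of q := by
  unfold rho
  rw [CoprodI.lift_of, if_pos hw]

theorem rho_out {S : Set W} {w : W} (hw : w ∉ S) (q : Q w) :
    rho Q S (CoprodI.of q) = 1 := by
  unfold rho
  rw [CoprodI.lift_of, if_neg hw]
  rfl

/-- the elements which come from the factors -/
def Gen (H : GFun) (Q : W → Type) [∀ w, Group (Q w)] (c : H.obj (CoprodI Q)) : Prop :=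
  ∃ (k : H.obj PUnit) (a : Π₀ w, H.obj (Q w)),
    c = H.map 1 k + sm H (fun w => (CoprodI.of : Q w →* CoprodI Q)) a

theorem Gen.add {c c' : H.obj (CoprodI Q)} (h : Gen H Q c) (h' : Gen H Q c') :
    Gen H Q (c + c') := by
  obtain ⟨k, a, rfl⟩ := h
  obtain ⟨k', a', rfl⟩ := h'
  exact ⟨k + k', a + a', by rw [map_add, H.map_add]; abel⟩

theorem Gen.of (w : W) (x : H.obj (Q w)) : Gen H Q (H.map CoprodI.of x) := by
  classical
  refine ⟨0, DFinsupp.single w x, ?_⟩
  unfold sm
  rw [sumD_single, H.map_zero, zero_add]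
  rfl

theorem gen_fin (hF : FreeSum H) (S : Finset W) (c : H.obj (CoprodI Q)) :
    Gen H Q (H.map (rho Q (S : Set W)) c) := by
  classical
  induction S using Finset.induction_on generalizing c with
  | empty =>
    refine ⟨H.map 1 c, 0, ?_⟩
    rw [map_zero, add_zero, ← H.map_comp]
    congr 1
    refine CoprodI.ext_hom _ _ (fun w => ?_)
    ext q
    rw [MonoidHom.comp_apply, rho_out (by simp)]
    rfl
  | insert v S hv ih =>
    let G : CoprodI Q →* Coprod (Q v) (CoprodI Q) := CoprodI.lift (fun w =>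
      if h : w = v then h ▸ Coprod.inl else if w ∈ S then Coprod.inr.comp CoprodI.of else 1)
    let F : Coprod (Q v) (CoprodI Q) →* CoprodI Q := Coprod.lift CoprodI.of (rho Q (S : Set W))
    have hFG : rho Q ((insert v S : Finset W) : Set W) = F.comp G := by
      refine CoprodI.ext_hom _ _ (fun w => ?_)
      ext q
      rw [MonoidHom.comp_apply, MonoidHom.comp_apply, MonoidHom.comp_apply]
      change _ = F (CoprodI.lift _ (CoprodI.of q))
      rw [CoprodI.lift_of]
      by_cases h : w = v
      · subst h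
        rw [rho_in (by simp), dif_pos rfl]
        exact (Coprod.lift_apply_inl _ _ q).symm
      · rw [dif_neg h]
        by_cases hS : w ∈ S
        · rw [rho_in (by simp [hS]), if_pos hS]
          change _ = F (Coprod.inr (CoprodI.of q))
          rw [Coprod.lift_apply_inr, rho_in (Finset.mem_coe.2 hS)]
        · rw [rho_out (by simp [h, hS]), if_neg hS]
          exact (map_one F).symm
    rw [hFG, H.map_comp]
    obtain ⟨x, y, hxy⟩ := hF _ _ (H.map G c)
    rw [hxy, H.map_add, ← H.map_comp, ← H.map_comp]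
    refine Gen.add ?_ ?_
    · have h1 : F.comp Coprod.inl = CoprodI.of := Coprod.lift_comp_inl _ _
      rw [h1]
      exact Gen.of v x
    · have h1 : F.comp Coprod.inr = rho Q (S : Set W) := Coprod.lift_comp_inr _ _
      rw [h1]
      exact ih y

theorem rho_rho {S T : Set W} (h : S ⊆ T) (x : CoprodI Q) : rho Q T (rho Q S x) = rho Q S x := by
  have h1 : (rho Q T).comp (rho Q S) = rho Q S := by
    refine CoprodI.ext_hom _ _ (fun w => ?_)
    ext q
    rw [MonoidHom.comp_apply, MonoidHom.comp_apply, MonoidHom.comp_apply]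
    by_cases hw : w ∈ S
    · rw [rho_in hw, rho_in (h hw)]
    · rw [rho_out hw, map_one]
  exact DFunLike.congr_fun h1 x

theorem gen_all (hF : FreeSum H) (hc : Cont H) (c : H.obj (CoprodI Q)) : Gen H Q c := by
  classical
  obtain ⟨S, y, hy⟩ := hc (CoprodI Q) (Finset W) (fun i j => ⟨i ∪ j, Finset.subset_union_left,
    Finset.subset_union_right⟩) (fun S => (rho Q (S : Set W)).eqLocus (MonoidHom.id _))
    (fun S T hST x hx => by
      change rho Q (T : Set W) x = x
      have h1 : rho Q (S : Set W) x = x := hx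
      rw [← h1]
      exact rho_rho (Finset.coe_subset.2 hST) x) (fun x => by
      induction x using CoprodI.induction_on with
      | one => exact ⟨∅, one_mem _⟩
      | of w q => exact ⟨{w}, rho_in (by simp) q⟩
      | mul a b ha hb =>
        obtain ⟨S, hS⟩ := ha
        obtain ⟨T, hT⟩ := hb
        have h1 : rho Q (S : Set W) a = a := hS
        have h2 : rho Q (T : Set W) b = b := hT
        refine ⟨S ∪ T, ?_⟩
        change rho Q ((S ∪ T : Finset W) : Set W) (a * b) = a * b
        rw [map_mul]
        congr 1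
        · rw [← h1]
          exact rho_rho (Finset.coe_subset.2 Finset.subset_union_left) a
        · rw [← h2]
          exact rho_rho (Finset.coe_subset.2 Finset.subset_union_right) b) c
  have h1 : c = H.map (rho Q (S : Set W)) c := by
    rw [hy, ← H.map_comp]
    congr 1
    ext x
    exact x.2.symm
  rw [h1]
  exact gen_fin hF S c

theorem sm_nat (α : GNat H E) {V : Type} {P : V → Type} [∀ v, Group (P v)] {N : Type} [Group N]
    (j : ∀ v, P v →* N) (a : Π₀ v, H.obj (P v)) :
    sm E j (nt α P a) = α.app N (sm H j a) := by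
  change sumD _ (mapD _ a) = α.hom N (sumD _ a)
  rw [sumD_mapD, hom_sumD]
  exact sumD_congr (fun v x => (α.nat (j v) x).symm) a

/-- the retraction -/
noncomputable def rt (Q : W → Type) [∀ w, Group (Q w)] (w : W) : CoprodI Q →* Q w := by
  classical
  exact CoprodI.lift (fun u => if h : u = w then h ▸ MonoidHom.id (Q w) else 1)

theorem rt_of (w : W) : (rt Q w).comp CoprodI.of = MonoidHom.id (Q w) := by
  ext q
  unfold rt
  rw [MonoidHom.comp_apply, CoprodI.lift_of, dif_pos rfl]

theorem rt_ne {w u : W} (h : u ≠ w) : (rt Q w).comp (CoprodI.of : Q u →* CoprodI Q) = 1 := by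
  ext q
  unfold rt
  rw [MonoidHom.comp_apply, CoprodI.lift_of, dif_neg h]

theorem S1 (K : GFun) (y : Π₀ w, K.obj (Q w)) :
    K.map (1 : CoprodI Q →* PUnit) (sm K (fun w => (CoprodI.of : Q w →* CoprodI Q)) y) =
      sumD (fun _ => AddMonoidHom.id _) (mapD (fun w => K.hom (1 : Q w →* PUnit)) y) := by
  change K.hom 1 (sumD _ y) = _
  rw [hom_sumD, sumD_mapD]
  exact sumD_congr (fun v x => pt_map K _ x) y

theorem S2 (K : GFun) (y : Π₀ _ : W, K.obj PUnit) :
    sm K (fun w => (CoprodI.of : Q w →* CoprodI Q))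
      (mapD (fun w => K.hom (1 : PUnit →* Q w)) y) =
      K.map 1 (sumD (fun _ => AddMonoidHom.id _) y) := by
  change sumD _ (mapD _ y) = K.hom 1 (sumD _ y)
  rw [hom_sumD, sumD_mapD]
  exact sumD_congr (fun v x => map_pt K _ x) y

theorem rt_sm (w : W) (b : Π₀ w, E.obj (Q w)) :
    E.map (rt Q w) (sm E (fun w => (CoprodI.of : Q w →* CoprodI Q)) b) =
      b w + E.map 1 (E.map (1 : CoprodI Q →* PUnit)
        (sm E (fun w => (CoprodI.of : Q w →* CoprodI Q)) b)) -
          E.map 1 (E.map (1 : Q w →* PUnit) (b w)) := by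
  classical
  let k : (Π₀ w, E.obj (Q w)) →+ E.obj (Q w) :=
    (E.hom (rt Q w)).comp (sm E (fun w => (CoprodI.of : Q w →* CoprodI Q)))
  let k' : (Π₀ w, E.obj (Q w)) →+ E.obj (Q w) :=
    DFinsupp.evalAddMonoidHom w + ((E.hom 1).comp ((E.hom (1 : CoprodI Q →* PUnit)).comp
      (sm E (fun w => (CoprodI.of : Q w →* CoprodI Q))))) -
      ((E.hom 1).comp ((E.hom (1 : Q w →* PUnit)).comp (DFinsupp.evalAddMonoidHom w)))
  refine homD_ext (k := k) (k' := k') (fun u x => ?_) b
  obtain ⟨y, hy⟩ : ∃ y : Π₀ w, E.obj (Q w), y = DFinsupp.single u x := ⟨_, rfl⟩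
  have h0 : sm E (fun w => (CoprodI.of : Q w →* CoprodI Q)) y =
      E.map CoprodI.of x := by
    rw [hy]
    exact sumD_single (fun w => E.hom (CoprodI.of : Q w →* CoprodI Q)) u x
  rw [← hy]
  change E.map (rt Q w) (sm E _ y) = y w +
    E.map 1 (E.map (1 : CoprodI Q →* PUnit) (sm E _ y)) -
      E.map 1 (E.map (1 : Q w →* PUnit) (y w))
  rw [h0, pt_map, ← E.map_comp, hy]
  by_cases h : u = w
  · subst h
    rw [rt_of, E.map_id, DFinsupp.single_eq_same, add_sub_cancel_right]
  · rw [rt_ne h, DFinsupp.single_eq_of_ne (Ne.symm h), E.map_zero, E.map_zero, zero_add, sub_zero]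
    exact map_one' E x

/-- **Free products are relatively bijective.** -/
theorem relBij_coprodI (hF : FreeSum H) (hF' : FreeSum E) (hc : Cont H) (hc' : Cont E)
    (hs : Function.Surjective (α.app PUnit)) (hi : Inj α PUnit) :
    RelBij α (fun w => (CoprodI.of : Q w →* CoprodI Q)) := by
  classical
  constructor
  · intro c
    obtain ⟨k, a, rfl⟩ := gen_all hF' hc' c
    obtain ⟨k', rfl⟩ := hs k
    exact ⟨a, H.map 1 k', by rw [α.nat, add_comm]⟩
  · intro a t hat
    obtain ⟨k, tt, ht⟩ := gen_all hF hc t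
    obtain ⟨e, he⟩ := exD (u := fun _ : W => α.hom PUnit) (w := fun _ => (0 : E.obj PUnit →+ Unit →₀ ℤ))
      (fun _ b _ => hs b) (mapD (fun w => E.hom (1 : Q w →* PUnit)) a) (mapD_ext fun v => rfl)
    have he' : ∀ w, α.app PUnit (e w) = E.map 1 (a w) := fun w => DFunLike.congr_fun he w
    -- the difference
    obtain ⟨b, hb⟩ : ∃ b, b = a - nt α Q tt := ⟨_, rfl⟩
    have h1 : sm E (fun w => (CoprodI.of : Q w →* CoprodI Q)) b = E.map 1 (α.app PUnit k) := by
      rw [hb, map_sub, sm_nat, hat, ht, α.app_add, α.nat, add_sub_cancel_right]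
    have h2 : ∀ w, b w = E.map 1 (E.map (1 : Q w →* PUnit) (b w)) := by
      intro w
      have h3 := rt_sm w b
      rw [h1, map_pt, pt_pt] at h3
      have h4 : b w + E.map 1 (α.app PUnit k) - E.map 1 (E.map (1 : Q w →* PUnit) (b w)) -
        E.map 1 (α.app PUnit k) = 0 := by rw [← h3, sub_self]
      have h5 : b w - E.map 1 (E.map (1 : Q w →* PUnit) (b w)) = 0 := by
        rw [← h4]; abel
      exact sub_eq_zero.1 h5
    let tr : (Π₀ _ : W, H.obj PUnit) →+ (Π₀ w, H.obj (Q w)) :=
      mapD (fun w => H.hom (1 : PUnit →* Q w))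
    let ag : (Π₀ w, H.obj (Q w)) →+ (Π₀ _ : W, H.obj PUnit) :=
      mapD (fun w => H.hom (1 : Q w →* PUnit))
    refine ⟨tt - tr (ag tt) + tr e, ?_, fun w => ?_⟩
    · rw [map_add, map_sub, S2, S2, ← S1]
      have h3 : sumD (fun _ => AddMonoidHom.id _) e =
          k + H.map (1 : CoprodI Q →* PUnit) (sm H (fun w => (CoprodI.of : Q w →* CoprodI Q)) tt) := by
        apply hi
        have h4 : α.app PUnit (sumD (fun _ => AddMonoidHom.id _) e) =
            E.map (1 : CoprodI Q →* PUnit) (α.app _ t) := by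
          rw [← hat, S1, ← he]
          change α.hom PUnit (sumD _ e) = _
          rw [hom_sumD, sumD_mapD]
          rfl
        rw [h4, ← α.nat, ht, H.map_add, pt_pt]
      rw [h3, H.map_add, ht]
      abel
    · change α.app (Q w) (tt w - H.map 1 (H.map 1 (tt w)) + H.map 1 (e w)) = a w
      rw [α.app_add, α.app_sub, α.nat, α.nat, α.nat, he']
      have h3 := h2 w
      have h4 : b w = a w - α.app (Q w) (tt w) := by rw [hb]; rfl
      rw [h4, E.map_sub, E.map_sub] at h3
      have h5 : a w = α.app (Q w) (tt w) + (E.map (1 : PUnit →* Q w)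
        (E.map (1 : Q w →* PUnit) (a w)) -
        E.map (1 : PUnit →* Q w) (E.map (1 : Q w →* PUnit) (α.app (Q w) (tt w)))) := by
        rw [← h3]; abel
      conv_rhs => rw [h5]
      abel

end gen

end Pool.Agent.Q105.NV
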