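import Pool.Agent.Q105.NV.FP
import Pool.Agent.Q105.NV.Chain

/-!
# Extensions of free products of groups and free groups
-/

set_option autoImplicit false
set_option linter.unusedSectionVars false

namespace Pool.Agent.Q105.NV

open Monoid Pool.Agent.Q143.MV Pool.Agent.Q262.NV

section

variable {H E : GFun} {α : GNat H E}

theorem surj_iso {G G' : Type} [Group G] [Group G'] (e : G ≃* G')
    (h : Function.Surjective (α.app G')) : Function.Surjective (α.app G) := by
  intro c
  obtain ⟨x, hx⟩ := h (E.map e.toMonoidHom c)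
  refine ⟨H.map e.symm.toMonoidHom x, ?_⟩
  rw [α.nat, hx, ← E.map_comp]
  have h1 : e.symm.toMonoidHom.comp e.toMonoidHom = MonoidHom.id G :=
    MonoidHom.ext fun y => e.symm_apply_apply y
  rw [h1, E.map_id]

/-- surjectivity passes to retracts -/
theorem surj_retract {G G' : Type} [Group G] [Group G'] (i : G →* G') (r : G' →* G)
    (h : ∀ g, r (i g) = g) (hG : Function.Surjective (α.app G')) :
    Function.Surjective (α.app G) := by
  have hri : r.comp i = MonoidHom.id G := MonoidHom.ext h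
  intro c
  obtain ⟨x, hx⟩ := hG (E.map i c)
  refine ⟨H.map r x, ?_⟩
  rw [α.nat, hx, ← E.map_comp, hri, E.map_id]

variable (hF : FreeSum H) (hF' : FreeSum E) (hc : Cont H) (hc' : Cont E)
  (hZ : Function.Bijective (α.app (Multiplicative ℤ)))

include hZ in
theorem pt_bij : Function.Surjective (α.app PUnit) ∧ Inj α PUnit :=
  ⟨surj_retract (1 : PUnit →* Multiplicative ℤ) 1 (fun _ => rfl) hZ.2,
    inj_retract α (1 : PUnit →* Multiplicative ℤ) 1 (fun _ => rfl) hZ.1⟩

include hF hF' hc hc' hZ in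
/-- free groups -/
theorem free_bij (Y : Type) : Inj α (FreeGroup Y) ∧ Function.Surjective (α.app (FreeGroup Y)) := by
  obtain ⟨h1, h2⟩ := pt_bij hZ
  let e : FreeGroup Unit ≃* Multiplicative ℤ := FreeGroup.mulEquivIntOfUnique
  have h3 : Inj α (FreeGroup Unit) := inj_iso α e hZ.1
  have h4 : Function.Surjective (α.app (FreeGroup Unit)) := surj_iso e hZ.2
  have h5 : RelBij (P := fun _ : Y => FreeGroup Unit) α
      (fun w => (CoprodI.of (i := w) : _ →* CoprodI (fun _ : Y => FreeGroup Unit))) :=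
    relBij_coprodI hF hF' hc hc' h1 h2
  refine ⟨inj_iso α freeGroupEquivCoprodI (h5.inj fun _ => h3), surj_iso freeGroupEquivCoprodI ?_⟩
  intro c
  obtain ⟨a, t, rfl⟩ := h5.1 c
  obtain ⟨b, hb⟩ := exD (u := fun _ : Y => α.hom (FreeGroup Unit))
    (w := fun _ => (0 : E.obj (FreeGroup Unit) →+ Unit →₀ ℤ)) (fun _ b _ => h4 b) a
    (mapD_ext fun v => rfl)
  refine ⟨sm H (fun w => (CoprodI.of (i := w) : _ →* CoprodI (fun _ : Y => FreeGroup Unit))) b
    + t, ?_⟩
  rw [α.app_add, ← sm_nat, ← hb]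
  rfl

section coprod

variable {V : Type} {P : V → Type} [∀ v, Group (P v)] {A B : Type} [Group A] [Group B]
  {j : ∀ v, P v →* A}

theorem sm_comp (K : GFun) {N : Type} [Group N] (k : A →* N) (a : Π₀ v, K.obj (P v)) :
    K.map k (sm K j a) = sm K (fun v => k.comp (j v)) a := by
  change K.hom k (sumD _ a) = sumD _ a
  rw [hom_sumD]
  exact sumD_congr (fun v x => (K.map_comp k (j v) x).symm) a

include hF hF' in
/-- a bijective free factor can be dropped -/
theorem relBij_coprod (hA : RelBij α j) (hB : Inj α B) (hB' : Function.Surjective (α.app B)) :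
    RelBij α (fun v => (Coprod.inl : A →* Coprod A B).comp (j v)) := by
  constructor
  · intro c
    obtain ⟨x, y, rfl⟩ := hF' A B c
    obtain ⟨a, t, rfl⟩ := hA.1 x
    obtain ⟨s, rfl⟩ := hB' y
    refine ⟨a, H.map Coprod.inl t + H.map Coprod.inr s, ?_⟩
    rw [← sm_comp, α.app_add, α.nat, α.nat, E.map_add]
    abel
  · intro a t hat
    let rA : Coprod A B →* A := Coprod.lift (MonoidHom.id A) 1
    let rB : Coprod A B →* B := Coprod.lift 1 (MonoidHom.id B)
    have hA1 : rA.comp Coprod.inl = MonoidHom.id A := Coprod.lift_comp_inl _ _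
    have hA2 : rA.comp Coprod.inr = 1 := Coprod.lift_comp_inr _ _
    have hB1 : rB.comp Coprod.inl = 1 := Coprod.lift_comp_inl _ _
    have hB2 : rB.comp Coprod.inr = MonoidHom.id B := Coprod.lift_comp_inr _ _
    rw [← sm_comp] at hat
    obtain ⟨h, hh, hh'⟩ := hA.2 a (H.map rA t) (by
      rw [α.nat, ← hat, ← E.map_comp, hA1, E.map_id])
    refine ⟨h, ?_, hh'⟩
    rw [← sm_comp, hh]
    obtain ⟨u, hu⟩ : ∃ u, u = t - H.map Coprod.inl (H.map rA t) := ⟨_, rfl⟩
    have h1 : α.app _ u = 0 := by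
      rw [hu, α.app_sub, ← hat, α.nat, α.nat, ← hat, ← E.map_comp rA, hA1, E.map_id, sub_self]
    have h2 : H.map rA u = 0 := by
      rw [hu, H.map_sub, ← H.map_comp, hA1, H.map_id, sub_self]
    obtain ⟨x, y, hxy⟩ := hF A B u
    have h3 : x = - H.map (1 : B →* A) y := by
      rw [hxy, H.map_add, ← H.map_comp, ← H.map_comp, hA1, hA2, H.map_id] at h2
      exact eq_neg_of_add_eq_zero_left h2
    have h4 : H.map (Coprod.inl : A →* Coprod A B) x =
        H.map Coprod.inr (- H.map (1 : B →* B) y) := by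
      rw [h3, H.map_neg, H.map_neg, ← H.map_comp, ← H.map_comp]
      congr 2
      ext b
      change Coprod.inl 1 = Coprod.inr 1
      rw [map_one, map_one]
    have h5 : u = H.map Coprod.inr (y - H.map (1 : B →* B) y) := by
      rw [hxy, h4, ← H.map_add]
      congr 1
      abel
    have h6 : y - H.map (1 : B →* B) y = 0 := by
      apply hB
      have h7 : H.map rB u = y - H.map (1 : B →* B) y := by
        rw [h5, ← H.map_comp, hB2, H.map_id]
      rw [← h7, α.nat, h1, E.map_zero, α.app_zero]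
    have h8 : u = 0 := by rw [h5, h6, H.map_zero]
    exact (sub_eq_zero.1 (hu.symm.trans h8)).symm

end coprod

end

section final

variable {Γ : Type} [Group Γ]

/-- The homomorphism from the free product of the groups `P v` and the free group on `Y`, which is
given by the inclusions of the `P v` and by the elements `y i`. -/
noncomputable def canon {V Y : Type} (P : V → Subgroup Γ) (y : Y → Γ) :
    Coprod (CoprodI (fun v => P v)) (FreeGroup Y) →* Γ :=
  Coprod.lift (CoprodI.lift (fun v => (P v).subtype)) (FreeGroup.lift y)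

/-- `N` is the internal free product of the subgroups `P v` and of the free group with basis `y`. -/
def IsFreeProd {V Y : Type} (N : Subgroup Γ) (P : V → Subgroup Γ) (y : Y → Γ) : Prop :=
  Function.Injective (canon P y) ∧ (canon P y).range = N

variable {H E : GFun} {α : GNat H E}

theorem relBij_free (hF : FreeSum H) (hF' : FreeSum E) (hc : Cont H) (hc' : Cont E)
    (hZ : Function.Bijective (α.app (Multiplicative ℤ))) {V Y : Type} {L : V → Subgroup Γ}
    {N : Subgroup Γ} {y : Y → Γ} (hN : IsFreeProd N (fun v => L v ⊓ N) y) :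
    RelBij α (fun v => inc (L v) N) := by
  obtain ⟨h1, h2⟩ := pt_bij hZ
  obtain ⟨h3, h4⟩ := free_bij hF hF' hc hc' hZ Y
  have h5 : RelBij (P := fun v => (L v ⊓ N : Subgroup Γ)) α (fun v => (CoprodI.of (i := v) : _ →*
      CoprodI (fun v => (L v ⊓ N : Subgroup Γ)))) := relBij_coprodI hF hF' hc hc' h1 h2
  have h6 := relBij_coprod (B := FreeGroup Y) hF hF' h5 h3 h4
  let e : Coprod (CoprodI (fun v => (L v ⊓ N : Subgroup Γ))) (FreeGroup Y) ≃* N :=
    (MonoidHom.ofInjective hN.1).trans (MulEquiv.subgroupCongr hN.2)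
  refine h6.congr e (fun v => MulEquiv.refl _) (fun v p => Subtype.ext ?_)
  change canon (fun v => L v ⊓ N) y (Coprod.inl (CoprodI.of p)) = p
  unfold canon
  rw [Coprod.lift_apply_inl, CoprodI.lift_of]
  rfl

/-- extensions by free groups which act by locally inner automorphisms -/
theorem loc_inner {H' E' H E : GFun} {β : GNat H' E'} {α : GNat H E} (hS : FreeSeq β α)
    (hc : Cont E') (hi : InnerTriv E') {X M : Type} [Group M] (π : M →* FreeGroup X)
    (hπ : Function.Surjective π)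
    (hloc : ∀ (t : M), LocConj (cjk π t) (MonoidHom.id π.ker))
    (hβ : Inj β π.ker) (hα : Inj α π.ker) : Inj β M := by
  obtain ⟨hcH', hcE', d, e, hde⟩ := hS
  have ht : ∃ t : X → M, Lifts π t := ⟨fun x => (hπ (FreeGroup.of x)).choose,
    fun x => (hπ (FreeGroup.of x)).choose_spec⟩
  obtain ⟨t, ht⟩ := ht
  refine β.inj_of _ (fun z hz => ?_)
  have h1 : d.d π z = 0 := by
    refine Finsupp.ext fun x => hα ?_
    rw [hde _ _ π hπ, hz, map_zero, Finsupp.zero_apply, Finsupp.zero_apply, α.app_zero]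
  obtain ⟨y, rfl⟩ := (d.ex1 π hπ z).1 h1
  rw [β.nat] at hz
  obtain ⟨c, hcc⟩ := (hcE' _ _ π t hπ ht _).1 hz
  have h2 : wang E' π t c = 0 := by
    induction c using Finsupp.induction_linear generalizing y with
    | zero => exact map_zero _
    | add c c' _ _ =>
      have h3 : ∀ c : X →₀ E'.obj π.ker, wang E' π t c = 0 := by
        intro c
        induction c using Finsupp.induction_linear with
        | zero => exact map_zero _
        | add c c' hc hc' => rw [map_add, hc, hc', add_zero]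
        | single x a =>
          rw [wang_single, map_loc hc hi (hloc (t x)) a, E'.map_id, sub_self]
      exact h3 _
    | single x a =>
      rw [wang_single, map_loc hc hi (hloc (t x)) a, E'.map_id, sub_self]
  have h3 : y = 0 := hβ (by rw [← hcc, h2, β.app_zero])
  rw [h3, H'.map_zero]

/-- Transfers for subgroups of finite index, which are compatible with the natural transformation and
injective on `H` (as the transfer in rational homology is). -/
def FinTransfer (α : GNat H E) : Prop :=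
  ∀ (Γ : Type) [Group Γ] (Γ' : Subgroup Γ), Γ'.FiniteIndex →
    ∃ (tH : H.obj Γ → H.obj Γ') (tE : E.obj Γ → E.obj Γ'), tE 0 = 0 ∧
      (∀ x, α.app Γ' (tH x) = tE (α.app Γ x)) ∧ ∀ x, tH x = 0 → x = 0

theorem FinTransfer.inj (hT : FinTransfer α) (Γ' : Subgroup Γ) (hf : Γ'.FiniteIndex)
    (h : Inj α Γ') : Inj α Γ := by
  obtain ⟨tH, tE, h0, h1, h2⟩ := hT Γ Γ' hf
  refine α.inj_of _ (fun x hx => h2 x (h ?_))
  rw [h1, hx, h0, α.app_zero]

/-- locally inner action on the intersection -/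
theorem loc_sub {H' E' H E : GFun} {β : GNat H' E'} {α : GNat H E} (hS : FreeSeq β α)
    (hc : Cont E') (hi : InnerTriv E') {L M M' : Subgroup Γ} (hN : FreeStep M M')
    (hL : ∀ γ ∈ M', ∃ l ∈ L, ∃ n ∈ M, γ = l * n)
    (hloc : ∀ l ∈ L ⊓ M', ∀ F : Finset Γ, (∀ a ∈ F, a ∈ L ⊓ M) →
      ∃ p ∈ L ⊓ M, ∀ a ∈ F, l * a * l⁻¹ = p * a * p⁻¹)
    (hβ : Inj β (L ⊓ M : Subgroup Γ)) (hα : Inj α (L ⊓ M : Subgroup Γ)) :
    Inj β (L ⊓ M' : Subgroup Γ) := by
  classical
  obtain ⟨hle, X, π, hπ, hker⟩ := hN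
  let π' : (L ⊓ M' : Subgroup Γ) →* FreeGroup X := π.comp (inc L M')
  have hk : ∀ x : (L ⊓ M' : Subgroup Γ), π' x = 1 ↔ (x : Γ) ∈ M := fun x => hker ⟨x, x.2.2⟩
  let e : (L ⊓ M : Subgroup Γ) ≃* π'.ker :=
    { toFun := fun m => ⟨⟨m, m.2.1, hle m.2.2⟩, (hk _).2 m.2.2⟩
      invFun := fun x => ⟨((x : (L ⊓ M' : Subgroup Γ)) : Γ), (x : (L ⊓ M' : Subgroup Γ)).2.1,
        (hk (x : (L ⊓ M' : Subgroup Γ))).1 x.2⟩
      left_inv := fun m => rfl
      right_inv := fun x => rfl
      map_mul' := fun m m' => rfl }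
  refine loc_inner hS hc hi π' ?_ ?_ (inj_iso β e.symm hβ) (inj_iso α e.symm hα)
  · intro y
    obtain ⟨x, rfl⟩ := hπ y
    obtain ⟨l, hl, n, hn, h⟩ := hL (x : Γ) x.2
    have hl' : l ∈ M' := by
      have h1 : l = (x : Γ) * n⁻¹ := by rw [h, mul_inv_cancel_right]
      rw [h1]
      exact mul_mem x.2 (inv_mem (hle hn))
    refine ⟨⟨l, hl, hl'⟩, ?_⟩
    change π ⟨l, hl'⟩ = π x
    have h2 : x = ⟨l, hl'⟩ * ⟨n, hle hn⟩ := Subtype.ext h
    rw [h2, map_mul, (hker ⟨n, hle hn⟩).2 hn, mul_one]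
  · intro t F
    obtain ⟨p, hp, hpF⟩ := hloc t t.2
      (F.image (fun a : π'.ker => ((a : (L ⊓ M' : Subgroup Γ)) : Γ))) (by
      intro a ha
      obtain ⟨b, _, rfl⟩ := Finset.mem_image.1 ha
      exact ⟨(b : (L ⊓ M' : Subgroup Γ)).2.1, (hk (b : (L ⊓ M' : Subgroup Γ))).1 b.2⟩)
    refine ⟨⟨⟨p, hp.1, hle hp.2⟩, (hk _).2 hp.2⟩, fun a ha => Subtype.ext (Subtype.ext ?_)⟩
    exact hpF _ (Finset.mem_image_of_mem _ ha)

end final

end Pool.Agent.Q105.NV
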