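import Pool.Agent.Q105.NV.Chase
import Pool.Agent.Q262.NV.Loc

/-!
# Relatively bijective families and extensions by free groups
-/

set_option autoImplicit false
set_option linter.unusedSectionVars false

namespace Pool.Agent.Q105.NV

open Pool.Agent.Q143.MV Pool.Agent.Q262.NV

section dsum

variable {V : Type} {A B D : V → Type} [∀ v, AddCommGroup (A v)] [∀ v, AddCommGroup (B v)]
  [∀ v, AddCommGroup (D v)] {T T' : Type} [AddCommGroup T] [AddCommGroup T']

/-- the homomorphism from the direct sum -/
noncomputable def sumD (u : ∀ v, A v →+ T) : (Π₀ v, A v) →+ T := by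
  classical
  exact DFinsupp.sumAddHom u

/-- the homomorphism of direct sums -/
noncomputable def mapD (u : ∀ v, A v →+ B v) : (Π₀ v, A v) →+ (Π₀ v, B v) :=
  DFinsupp.mapRange.addMonoidHom u

theorem mapD_apply (u : ∀ v, A v →+ B v) (a : Π₀ v, A v) (v : V) : mapD u a v = u v (a v) :=
  rfl

theorem homD_ext [DecidableEq V] {k k' : (Π₀ v, A v) →+ T}
    (h : ∀ v x, k (DFinsupp.single v x) = k' (DFinsupp.single v x)) (a : Π₀ v, A v) :
    k a = k' a := by
  have h1 : k = k' := DFinsupp.addHom_ext h
  rw [h1]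

theorem sumD_single [i : DecidableEq V] (u : ∀ v, A v →+ T) (v : V) (x : A v) :
    sumD u (DFinsupp.single v x) = u v x := by
  obtain rfl : i = fun a b => Classical.propDecidable (a = b) := Subsingleton.elim _ _
  classical
  exact DFinsupp.sumAddHom_single u v x

theorem mapD_single [DecidableEq V] (u : ∀ v, A v →+ B v) (v : V) (x : A v) :
    mapD u (DFinsupp.single v x) = DFinsupp.single v (u v x) := by
  unfold mapD
  exact DFinsupp.mapRange_single (hf := fun v => map_zero (u v))

theorem hom_sumD (k : T →+ T') (u : ∀ v, A v →+ T) (a : Π₀ v, A v) :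
    k (sumD u a) = sumD (fun v => k.comp (u v)) a := by
  classical
  refine homD_ext (k := k.comp (sumD u)) (fun v x => ?_) a
  rw [AddMonoidHom.comp_apply, sumD_single, sumD_single]
  rfl

theorem sumD_mapD (u : ∀ v, B v →+ T) (w : ∀ v, A v →+ B v) (a : Π₀ v, A v) :
    sumD u (mapD w a) = sumD (fun v => (u v).comp (w v)) a := by
  classical
  refine homD_ext (k := (sumD u).comp (mapD w)) (fun v x => ?_) a
  rw [AddMonoidHom.comp_apply, mapD_single, sumD_single, sumD_single]
  rfl

theorem sumD_congr {u u' : ∀ v, A v →+ T} (h : ∀ v x, u v x = u' v x) (a : Π₀ v, A v) :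
    sumD u a = sumD u' a := by
  have h1 : u = u' := funext fun v => AddMonoidHom.ext (h v)
  rw [h1]

theorem mapD_ext {a b : Π₀ v, A v} (h : ∀ v, a v = b v) : a = b := DFinsupp.ext h

/-- exactness of direct sums -/
theorem exD {u : ∀ v, A v →+ B v} {w : ∀ v, B v →+ D v}
    (h : ∀ v b, w v b = 0 → ∃ a, u v a = b) (b : Π₀ v, B v) (hb : mapD w b = 0) :
    ∃ a, mapD u a = b := by
  classical
  have h1 : ∀ v, ∃ a, u v a = b v := fun v => h v (b v) (by
    have h2 := DFunLike.congr_fun hb v
    exact h2)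
  choose a ha using h1
  refine ⟨DFinsupp.mk b.support (fun v => a v), mapD_ext fun v => ?_⟩
  rw [mapD_apply, DFinsupp.mk_apply]
  split_ifs with hv
  · exact ha v
  · rw [map_zero]
    exact (DFinsupp.notMem_support_iff.1 hv).symm

variable {X : Type}

/-- the map of finitely supported functions -/
noncomputable def mapX {T T' : Type} [AddCommGroup T] [AddCommGroup T'] (k : T →+ T') :
    (X →₀ T) →+ (X →₀ T') := Finsupp.mapRange.addMonoidHom k

theorem mapX_apply (k : T →+ T') (c : X →₀ T) (x : X) : mapX k c x = k (c x) := rfl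

theorem mapX_single (k : T →+ T') (x : X) (y : T) :
    mapX k (Finsupp.single x y) = Finsupp.single x (k y) := by
  unfold mapX
  exact Finsupp.mapRange_single (hf := map_zero k)

/-- evaluation at `x` -/
noncomputable def evx (A : V → Type) [∀ v, AddCommGroup (A v)] (x : X) :
    (Π₀ v, X →₀ A v) →+ (Π₀ v, A v) := mapD (fun _ => Finsupp.applyAddHom x)

/-- the insertion at `x` -/
noncomputable def inx (A : V → Type) [∀ v, AddCommGroup (A v)] (x : X) :
    (Π₀ v, A v) →+ (Π₀ v, X →₀ A v) := mapD (fun _ => Finsupp.singleAddHom x)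

theorem evx_apply (x : X) (a : Π₀ v, X →₀ A v) (v : V) : evx A x a v = a v x := rfl

theorem inx_apply (x : X) (a : Π₀ v, A v) (v : V) : inx A x a v = Finsupp.single x (a v) := rfl

theorem sum_inx (x : X) (u : ∀ v, A v →+ T) (a : Π₀ v, A v) :
    sumD (fun v => mapX (u v)) (inx A x a) = Finsupp.single x (sumD u a) := by
  unfold inx
  rw [sumD_mapD]
  have h1 := hom_sumD (Finsupp.singleAddHom x) u a
  refine Eq.trans (sumD_congr (fun v y => ?_) a) h1.symm
  exact mapX_single (u v) x y

theorem sum_evx (x : X) (u : ∀ v, A v →+ T) (a : Π₀ v, X →₀ A v) :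
    (sumD (fun v => mapX (u v)) a) x = sumD u (evx A x a) := by
  unfold evx
  rw [sumD_mapD]
  have h1 := hom_sumD (Finsupp.applyAddHom x) (fun v => mapX (X := X) (u v)) a
  exact h1

theorem surj_X {K : Type} [AddCommGroup K] {u : ∀ v, A v →+ T} {k : K →+ T}
    (h : ∀ c : T, ∃ (a : Π₀ v, A v) (t : K), sumD u a + k t = c) (c : X →₀ T) :
    ∃ (a : Π₀ v, X →₀ A v) (t : X →₀ K), sumD (fun v => mapX (u v)) a + mapX k t = c := by
  induction c using Finsupp.induction_linear with
  | zero => exact ⟨0, 0, by rw [map_zero, map_zero, add_zero]⟩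
  | add c c' hc hc' =>
    obtain ⟨a, t, rfl⟩ := hc
    obtain ⟨a', t', rfl⟩ := hc'
    exact ⟨a + a', t + t', by rw [map_add, map_add]; abel⟩
  | single x e =>
    obtain ⟨a, t, rfl⟩ := h e
    exact ⟨inx A x a, Finsupp.single x t, by rw [sum_inx, mapX_single, ← Finsupp.single_add]⟩

theorem exact_X {K : Type} [AddCommGroup K] {u : ∀ v, A v →+ T} {k : K →+ T}
    {w : ∀ v, B v →+ A v} {z : ∀ v, B v →+ K}
    (h : ∀ (a : Π₀ v, A v) (t : K), sumD u a + k t = 0 →
      ∃ b : Π₀ v, B v, mapD w b = a ∧ sumD z b = t)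
    (a : Π₀ v, X →₀ A v) (t : X →₀ K) (hat : sumD (fun v => mapX (u v)) a + mapX k t = 0) :
    ∃ b : Π₀ v, X →₀ B v, mapD (fun v => mapX (w v)) b = a ∧ sumD (fun v => mapX (z v)) b = t := by
  classical
  have h1 : ∀ x, ∃ b : Π₀ v, B v, mapD w b = evx A x a ∧ sumD z b = t x := by
    intro x
    refine h _ _ ?_
    rw [← sum_evx, ← mapX_apply, ← Finsupp.add_apply, hat, Finsupp.zero_apply]
  choose b hb hb' using h1
  let S : Finset X := a.support.biUnion (fun v => (a v).support) ∪ t.support
  have hSt : ∀ x, x ∉ S → t x = 0 := fun x hx =>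
    Finsupp.notMem_support_iff.1 (fun h => hx (Finset.mem_union_right _ h))
  have hSa : ∀ x, x ∉ S → ∀ v, a v x = 0 := by
    intro x hx v
    by_contra hne
    apply hx
    refine Finset.mem_union_left _ (Finset.mem_biUnion.2 ⟨v, ?_, Finsupp.mem_support_iff.2 hne⟩)
    rw [DFinsupp.mem_support_iff]
    intro h0
    apply hne
    rw [h0]
    rfl
  refine ⟨∑ x ∈ S, inx B x (b x), mapD_ext fun v => Finsupp.ext fun y => ?_,
    Finsupp.ext fun y => ?_⟩
  · rw [mapD_apply, mapX_apply, DFinsupp.finsetSum_apply, Finsupp.finsetSum_apply]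
    have h2 : ∀ x ∈ S, (inx B x (b x) v) y = if x = y then b y v else 0 := by
      intro x _
      rw [inx_apply, Finsupp.single_apply]
      split_ifs with hxy
      · rw [hxy]
      · rfl
    rw [Finset.sum_congr rfl h2, Finset.sum_ite_eq']
    split_ifs with hy
    · have h3 := DFunLike.congr_fun (hb y) v
      exact h3
    · rw [map_zero, hSa y hy v]
  · rw [map_sum, Finsupp.finsetSum_apply]
    have h2 : ∀ x ∈ S, (sumD (fun v => mapX (z v)) (inx B x (b x))) y =
        if x = y then t y else 0 := by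
      intro x _
      rw [sum_inx, Finsupp.single_apply]
      split_ifs with hxy
      · rw [← hxy]
        exact hb' x
      · rfl
    rw [Finset.sum_congr rfl h2, Finset.sum_ite_eq']
    split_ifs with hy
    · rfl
    · exact (hSt y hy).symm

end dsum

end Pool.Agent.Q105.NV
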