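import Pool.Agent.Q105.NV.Rel

/-!
# Relatively bijective families and extensions by free groups: the step
-/

set_option autoImplicit false
set_option linter.unusedSectionVars false

namespace Pool.Agent.Q105.NV

open Pool.Agent.Q143.MV Pool.Agent.Q262.NV

/-- The conjugation with `t` on the kernel of `π`. -/
def cjk {M Q : Type} [Group M] [Group Q] (π : M →* Q) (t : M) : π.ker →* π.ker :=
  (MulAut.conjNormal t : MulAut π.ker).toMonoidHom

theorem cjk_coe {M Q : Type} [Group M] [Group Q] (π : M →* Q) (t : M) (a : π.ker) :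
    ((cjk π t a : π.ker) : M) = t * a * t⁻¹ := rfl

/-- The homomorphism of the kernels that is induced by a homomorphism of groups over `Q`. -/
def kmap {M M' Q : Type} [Group M] [Group M'] [Group Q] {π : M →* Q} {π' : M' →* Q} (f : M →* M')
    (h : π'.comp f = π) : π.ker →* π'.ker :=
  (f.comp π.ker.subtype).codRestrict π'.ker (fun x => by
    change π' (f x) = 1
    rw [← MonoidHom.comp_apply, h]
    exact x.2)

theorem kmap_coe {M M' Q : Type} [Group M] [Group M'] [Group Q] {π : M →* Q} {π' : M' →* Q}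
    (f : M →* M') (h : π'.comp f = π) (a : π.ker) : ((kmap f h a : π'.ker) : M') = f a := rfl

/-- The sum of the elements `c x - t x • c x`, where `t x` acts by conjugation on the kernel. -/
noncomputable def wang (H : GFun) {X M : Type} [Group M] (π : M →* FreeGroup X) (t : X → M) :
    (X →₀ H.obj π.ker) →+ H.obj π.ker :=
  Finsupp.liftAddHom (fun x => AddMonoidHom.id _ - H.hom (cjk π (t x)))

theorem wang_single (H : GFun) {X M : Type} [Group M] (π : M →* FreeGroup X) (t : X → M) (x : X)
    (c : H.obj π.ker) : wang H π t (Finsupp.single x c) = c - H.map (cjk π (t x)) c := by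
  unfold wang
  rw [Finsupp.liftAddHom_apply_single]
  rfl

/-- `t` is a lift of the basis of the free group. -/
def Lifts {X M : Type} [Group M] (π : M →* FreeGroup X) (t : X → M) : Prop :=
  ∀ x, π (t x) = FreeGroup.of x

/-- Exactness at `H(ker π)` for surjective `π` from `M` to a free group: an element of `H(ker π)` dies
in `H(M)` if and only if it is a sum of elements `c x - t x • c x`. -/
def Coinv (H : GFun) : Prop :=
  ∀ (X M : Type) [Group M] (π : M →* FreeGroup X) (t : X → M), Function.Surjective π →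
    Lifts π t → ∀ y : H.obj π.ker, H.map π.ker.subtype y = 0 ↔ ∃ c, wang H π t c = y

/-- Boundary maps for surjective homomorphisms `π` to free groups: natural and exact. (The values for
homomorphisms which are not surjective are not used, no condition is imposed on them.) -/
structure Bd (H' H : GFun) where
  /-- the boundary map -/
  d : ∀ {X M : Type} [Group M] (π : M →* FreeGroup X), H'.obj M →+ (X →₀ H.obj π.ker)
  nat : ∀ {X M M' : Type} [Group M] [Group M'] (π : M →* FreeGroup X) (π' : M' →* FreeGroup X)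
    (f : M →* M') (h : π'.comp f = π), Function.Surjective π → ∀ (z : H'.obj M) (x : X),
    d π' (H'.map f z) x = H.map (kmap f h) (d π z x)
  ex1 : ∀ {X M : Type} [Group M] (π : M →* FreeGroup X), Function.Surjective π →
    ∀ z, d π z = 0 ↔ ∃ y, H'.map π.ker.subtype y = z
  ex2 : ∀ {X M : Type} [Group M] (π : M →* FreeGroup X) (t : X → M), Function.Surjective π →
    Lifts π t → ∀ c, wang H π t c = 0 ↔ ∃ z, d π z = c

/-- The exact sequences exist for `H` and `E`, and the natural transformations commute with the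
boundary maps. -/
def FreeSeq {H' E' H E : GFun} (β : GNat H' E') (α : GNat H E) : Prop :=
  Coinv H' ∧ Coinv E' ∧ ∃ (d : Bd H' H) (e : Bd E' E), ∀ (X M : Type) [Group M]
    (π : M →* FreeGroup X), Function.Surjective π → ∀ (z : H'.obj M) (x : X),
      α.app π.ker (d.d π z x) = e.d π (β.app M z) x

section rel

variable {V : Type} {P : V → Type} [∀ v, Group (P v)] {N : Type} [Group N]

/-- the homomorphism of direct sums -/
noncomputable def nt {H E : GFun} (β : GNat H E) (P : V → Type) [∀ v, Group (P v)] :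
    (Π₀ v, H.obj (P v)) →+ (Π₀ v, E.obj (P v)) :=
  mapD (fun v => β.hom (P v))

/-- the sum of the images of elements of the groups `H(P v)` in `H(N)` -/
noncomputable def sm (H : GFun) (j : ∀ v, P v →* N) : (Π₀ v, H.obj (P v)) →+ H.obj N :=
  sumD (fun v => H.hom (j v))

/-- The natural transformation is bijective relative to the family `j v : P v → N`: every element
of `E(N)` is the sum of the image of an element of `H(N)` and of finitely many images of elements of
`E(P v)`, and if the image of `t` in `H(N)` is the sum of the images of the elements `a v` of `E(P v)`,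
then `t` is the sum of the images of elements of `H(P v)` which are mapped to the `a v`. -/
def RelBij {H E : GFun} (β : GNat H E) (j : ∀ v, P v →* N) : Prop :=
  (∀ c : E.obj N, ∃ (a : Π₀ v, E.obj (P v)) (t : H.obj N), sm E j a + β.app N t = c) ∧
  ∀ (a : Π₀ v, E.obj (P v)) (t : H.obj N), sm E j a = β.app N t →
    ∃ h : Π₀ v, H.obj (P v), sm H j h = t ∧ ∀ v, β.app (P v) (h v) = a v

theorem RelBij.inj {H E : GFun} {β : GNat H E} {j : ∀ v, P v →* N} (h : RelBij β j)
    (hP : ∀ v, Inj β (P v)) : Inj β N := by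
  refine β.inj_of _ (fun x hx => ?_)
  obtain ⟨y, hy, hy'⟩ := h.2 0 x (by rw [hx, map_zero])
  have h1 : y = 0 := mapD_ext fun v => hP v (by
    rw [hy', DFinsupp.zero_apply, DFinsupp.zero_apply, β.app_zero])
  rw [← hy, h1, map_zero]

/-- the exactness of the square in the other form -/
theorem RelBij.exact {H E : GFun} {β : GNat H E} {j : ∀ v, P v →* N} (h : RelBij β j)
    (a : Π₀ v, E.obj (P v)) (t : H.obj N) (h0 : sm E j a + β.hom N t = 0) :
    ∃ b : Π₀ v, H.obj (P v), nt β P b = a ∧ sumD (fun v => -(H.hom (j v))) b = t := by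
  obtain ⟨b, hb, hb'⟩ := h.2 a (-t) (by
    rw [β.app_neg]
    exact eq_neg_of_add_eq_zero_left h0)
  refine ⟨b, mapD_ext hb', ?_⟩
  have h1 : sumD (fun v => -(H.hom (j v))) b = -(sm H j b) := by
    have h2 := hom_sumD (-(AddMonoidHom.id (H.obj N))) (fun v => H.hom (j v)) b
    exact h2.symm
  rw [h1, hb, neg_neg]

end rel

section step

variable {V X M : Type} [Group M] {L : V → Type} [∀ v, Group (L v)] (f : ∀ v, L v →* M)
  (π : M →* FreeGroup X)

/-- the homomorphisms of the kernels -/
def kj (v : V) : (π.comp (f v)).ker →* π.ker := kmap (f v) rfl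

variable {f π} {t : X → M} {s : ∀ v, X → L v}

theorem map_cjk {H : GFun} (hi : InnerTriv H) {t t' : M} (h : π t = π t') (x : H.obj π.ker) :
    H.map (cjk π t) x = H.map (cjk π t') x := by
  have hm : t * t'⁻¹ ∈ π.ker := by
    rw [MonoidHom.mem_ker, map_mul, map_inv, h, mul_inv_cancel]
  have h1 : cjk π t = (MulAut.conj (⟨_, hm⟩ : π.ker)).toMonoidHom.comp (cjk π t') := by
    ext a
    change t * (a : M) * t⁻¹ = (t * t'⁻¹) * (t' * (a : M) * t'⁻¹) * (t * t'⁻¹)⁻¹
    group
  rw [h1, H.map_comp, hi]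

theorem wang_kj {H : GFun} (hi : InnerTriv H) (ht : Lifts π t) (v : V)
    (hs : Lifts (π.comp (f v)) (s v)) (c : X →₀ H.obj (π.comp (f v)).ker) :
    H.map (kj f π v) (wang H (π.comp (f v)) (s v) c) = wang H π t (mapX (H.hom (kj f π v)) c) := by
  induction c using Finsupp.induction_linear with
  | zero => rw [map_zero, H.map_zero, map_zero, map_zero]
  | add c c' hc hc' => rw [map_add, H.map_add, hc, hc', map_add, map_add]
  | single x a =>
    rw [wang_single, mapX_single, wang_single, H.map_sub]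
    congr 1
    have h1 : π (t x) = π (f v (s v x)) := by
      rw [ht x]
      exact (hs x).symm
    rw [map_cjk hi h1]
    change _ = H.map _ (H.map _ a)
    rw [← H.map_comp, ← H.map_comp]
    congr 1
    ext b
    change f v (s v x * (b : L v) * (s v x)⁻¹) = f v (s v x) * f v b * (f v (s v x))⁻¹
    rw [map_mul, map_mul, map_inv]

theorem wang_nat {H E : GFun} (α : GNat H E) (c : X →₀ H.obj π.ker) :
    α.app π.ker (wang H π t c) = wang E π t (mapX (α.hom π.ker) c) := by
  induction c using Finsupp.induction_linear with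
  | zero => rw [map_zero, α.app_zero, map_zero, map_zero]
  | add c c' hc hc' => rw [map_add, α.app_add, hc, hc', map_add, map_add]
  | single x a =>
    rw [wang_single, mapX_single, wang_single, α.app_sub, α.nat]
    rfl

theorem mapX_neg {T T' : Type} [AddCommGroup T] [AddCommGroup T'] (k : T →+ T') (c : X →₀ T) :
    mapX (-k) c = -(mapX k c) := by
  ext x
  rfl

theorem zz {A B : V → Type} [∀ v, AddCommGroup (A v)] [∀ v, AddCommGroup (B v)] {T K : Type}
    [AddCommGroup T] [AddCommGroup K] {u : ∀ v, A v →+ T} {w : ∀ v, B v →+ A v} {k : K →+ T}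
    {z : ∀ v, B v →+ K} (h : ∀ v x, u v (w v x) + k (z v x) = 0) (a : Π₀ v, B v) :
    sumD u (mapD w a) + k (sumD z a) = 0 := by
  classical
  refine homD_ext (k := (sumD u).comp (mapD w) + k.comp (sumD z)) (k' := 0) (fun v x => ?_) a
  rw [AddMonoidHom.add_apply, AddMonoidHom.comp_apply, AddMonoidHom.comp_apply, mapD_single,
    sumD_single, sumD_single, h]
  rfl

theorem sub_kj (H : GFun) (v : V) (x : H.obj (π.comp (f v)).ker) :
    H.map (f v) (H.map (π.comp (f v)).ker.subtype x) =
      H.map π.ker.subtype (H.map (kj f π v) x) := by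
  rw [← H.map_comp, ← H.map_comp]
  rfl

/-- the maps of the chase -/
noncomputable def ff {V : Type} {P : V → Type} [∀ v, Group (P v)] {N : Type} [Group N]
    {H E : GFun} (β : GNat H E) (j : ∀ v, P v →* N) :
    (Π₀ v, H.obj (P v)) →+ (Π₀ v, E.obj (P v)) × H.obj N :=
  (nt β P).prod (sumD (fun v => -(H.hom (j v))))

/-- the maps of the chase -/
noncomputable def gg {V : Type} {P : V → Type} [∀ v, Group (P v)] {N : Type} [Group N]
    {H E : GFun} (β : GNat H E) (j : ∀ v, P v →* N) :
    (Π₀ v, E.obj (P v)) × H.obj N →+ E.obj N :=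
  (sm E j).coprod (β.hom N)

/-- the maps of the chase -/
noncomputable def ffX (X : Type) {V : Type} {P : V → Type} [∀ v, Group (P v)] {N : Type} [Group N]
    {H E : GFun} (β : GNat H E) (j : ∀ v, P v →* N) :
    (Π₀ v, X →₀ H.obj (P v)) →+ (Π₀ v, X →₀ E.obj (P v)) × (X →₀ H.obj N) :=
  (mapD (fun v => mapX (β.hom (P v)))).prod (sumD (fun v => mapX (-(H.hom (j v)))))

/-- the maps of the chase -/
noncomputable def ggX (X : Type) {V : Type} {P : V → Type} [∀ v, Group (P v)] {N : Type} [Group N]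
    {H E : GFun} (β : GNat H E) (j : ∀ v, P v →* N) :
    (Π₀ v, X →₀ E.obj (P v)) × (X →₀ H.obj N) →+ (X →₀ E.obj N) :=
  (sumD (fun v => mapX (E.hom (j v)))).coprod (mapX (β.hom N))

theorem gg_ff {V : Type} {P : V → Type} [∀ v, Group (P v)] {N : Type} [Group N]
    {H E : GFun} (β : GNat H E) (j : ∀ v, P v →* N) (a : Π₀ v, H.obj (P v)) :
    gg β j (ff β j a) = 0 := by
  refine zz (u := fun v => E.hom (j v)) (w := fun v => β.hom (P v)) (k := β.hom N)
    (z := fun v => -(H.hom (j v))) (fun v x => ?_) a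
  change E.map (j v) (β.app (P v) x) + β.app N (-(H.map (j v) x)) = 0
  rw [β.app_neg, β.nat, add_neg_cancel]

theorem ggX_ffX {V : Type} {P : V → Type} [∀ v, Group (P v)] {N : Type} [Group N]
    {H E : GFun} (β : GNat H E) (j : ∀ v, P v →* N) (a : Π₀ v, X →₀ H.obj (P v)) :
    ggX X β j (ffX X β j a) = 0 := by
  refine zz (u := fun v => mapX (E.hom (j v))) (w := fun v => mapX (β.hom (P v)))
    (k := mapX (β.hom N)) (z := fun v => mapX (-(H.hom (j v)))) (fun v c => ?_) a
  ext x
  change E.map (j v) (β.app (P v) (c x)) + β.app N (-(H.map (j v) (c x))) = 0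
  rw [β.app_neg, β.nat, add_neg_cancel]

/-- **The step.** -/
theorem step {H' E' H E : GFun} {β : GNat H' E'} {α : GNat H E} (hS : FreeSeq β α)
    (hcH : Coinv H) (hcE : Coinv E) (hiE' : InnerTriv E')
    (hiH : InnerTriv H) (hiE : InnerTriv E) (hπ : Function.Surjective π)
    (hf : ∀ v, Function.Surjective (π.comp (f v))) (hβ : RelBij β (kj f π))
    (hα : RelBij α (kj f π)) (hP : ∀ v, Inj α (π.comp (f v)).ker) (hL : ∀ v, Inj α (L v)) :
    RelBij β f := by
  classical
  obtain ⟨hcH', hcE', d, e, hde⟩ := hS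
  have ht : ∃ t : X → M, Lifts π t := ⟨fun x => (hπ (FreeGroup.of x)).choose,
    fun x => (hπ (FreeGroup.of x)).choose_spec⟩
  obtain ⟨t, ht⟩ := ht
  have hs : ∀ v, ∃ s : X → L v, Lifts (π.comp (f v)) s := fun v =>
    ⟨fun x => (hf v (FreeGroup.of x)).choose, fun x => (hf v (FreeGroup.of x)).choose_spec⟩
  choose s hs using hs
  let a23 := mapD (fun v => H'.hom (π.comp (f v)).ker.subtype)
  let a34 := mapD (fun v => d.d (π.comp (f v)))
  let a45 := mapD (fun v => wang H (π.comp (f v)) (s v))
  let a56 := mapD (fun v => H.hom (π.comp (f v)).ker.subtype)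
  let b12 := (mapD (fun v => wang E' (π.comp (f v)) (s v))).prodMap (wang H' π t)
  let b23 := (mapD (fun v => E'.hom (π.comp (f v)).ker.subtype)).prodMap
    (H'.hom π.ker.subtype)
  let b34 := (mapD (fun v => e.d (π.comp (f v)))).prodMap (d.d π)
  let b45 := (mapD (fun v => wang E (π.comp (f v)) (s v))).prodMap (wang H π t)
  let b56 := (mapD (fun v => E.hom (π.comp (f v)).ker.subtype)).prodMap
    (H.hom π.ker.subtype)
  -- the squares
  have q23 : ∀ a, ff β f (a23 a) = b23 (ff β (kj f π) a) := by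
    intro a
    refine Prod.ext (mapD_ext fun v => β.nat _ _) ?_
    change sumD (fun v => -(H'.hom (f v))) (mapD _ a) =
      H'.hom π.ker.subtype (sumD (fun v => -(H'.hom (kj f π v))) a)
    rw [sumD_mapD, hom_sumD]
    refine sumD_congr (fun v x => ?_) a
    change -(H'.map (f v) (H'.map _ x)) = H'.map _ (-(H'.map _ x))
    rw [H'.map_neg, sub_kj]
  have q56 : ∀ a, ff α f (a56 a) = b56 (ff α (kj f π) a) := by
    intro a
    refine Prod.ext (mapD_ext fun v => α.nat _ _) ?_
    change sumD (fun v => -(H.hom (f v))) (mapD _ a) =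
      H.hom π.ker.subtype (sumD (fun v => -(H.hom (kj f π v))) a)
    rw [sumD_mapD, hom_sumD]
    refine sumD_congr (fun v x => ?_) a
    change -(H.map (f v) (H.map _ x)) = H.map _ (-(H.map _ x))
    rw [H.map_neg, sub_kj]
  have q34 : ∀ a, ffX X α (kj f π) (a34 a) = b34 (ff β f a) := by
    intro a
    refine Prod.ext (mapD_ext fun v => Finsupp.ext fun x => hde _ _ _ (hf v) _ x) ?_
    change sumD (fun v => mapX (-(H.hom (kj f π v)))) (mapD _ a) =
      d.d π (sumD (fun v => -(H'.hom (f v))) a)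
    rw [sumD_mapD, hom_sumD]
    refine sumD_congr (fun v z => Finsupp.ext fun x => ?_) a
    change -(H.map (kj f π v) (d.d (π.comp (f v)) z x)) = d.d π (-(H'.map (f v) z)) x
    rw [map_neg, Finsupp.neg_apply, d.nat (π.comp (f v)) π (f v) rfl (hf v)]
    rfl
  have q45 : ∀ a, ff α (kj f π) (a45 a) = b45 (ffX X α (kj f π) a) := by
    intro a
    refine Prod.ext (mapD_ext fun v => wang_nat α _) ?_
    change sumD (fun v => -(H.hom (kj f π v))) (mapD _ a) =
      wang H π t (sumD (fun v => mapX (-(H.hom (kj f π v)))) a)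
    rw [sumD_mapD, hom_sumD]
    refine sumD_congr (fun v c => ?_) a
    change -(H.map (kj f π v) (wang H _ (s v) c)) = wang H π t (mapX (-(H.hom (kj f π v))) c)
    rw [mapX_neg, map_neg, wang_kj hiH ht v (hs v)]
  have r12 : ∀ b, gg β (kj f π) (b12 b) = wang E' π t (ggX X β (kj f π) b) := by
    rintro ⟨a, c⟩
    change sumD (fun v => E'.hom (kj f π v)) (mapD _ a) + β.app _ (wang H' π t c) =
      wang E' π t (sumD (fun v => mapX (E'.hom (kj f π v))) a + mapX (β.hom _) c)
    rw [map_add, sumD_mapD, hom_sumD, wang_nat]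
    congr 1
    exact sumD_congr (fun v c => wang_kj hiE' ht v (hs v) c) a
  have r45 : ∀ b, gg α (kj f π) (b45 b) = wang E π t (ggX X α (kj f π) b) := by
    rintro ⟨a, c⟩
    change sumD (fun v => E.hom (kj f π v)) (mapD _ a) + α.app _ (wang H π t c) =
      wang E π t (sumD (fun v => mapX (E.hom (kj f π v))) a + mapX (α.hom _) c)
    rw [map_add, sumD_mapD, hom_sumD, wang_nat]
    congr 1
    exact sumD_congr (fun v c => wang_kj hiE ht v (hs v) c) a
  have r23 : ∀ b, gg β f (b23 b) = E'.hom π.ker.subtype (gg β (kj f π) b) := by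
    rintro ⟨a, c⟩
    change sumD (fun v => E'.hom (f v)) (mapD _ a) + β.app _ (H'.map _ c) =
      E'.hom π.ker.subtype (sumD (fun v => E'.hom (kj f π v)) a + β.app _ c)
    rw [map_add, sumD_mapD, hom_sumD, β.nat]
    congr 1
    exact sumD_congr (fun v x => sub_kj E' v x) a
  have r34 : ∀ b, ggX X α (kj f π) (b34 b) = e.d π (gg β f b) := by
    rintro ⟨a, c⟩
    change sumD (fun v => mapX (E.hom (kj f π v))) (mapD _ a) + mapX (α.hom _) (d.d π c) =
      e.d π (sumD (fun v => E'.hom (f v)) a + β.app _ c)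
    rw [map_add, sumD_mapD, hom_sumD]
    congr 1
    · refine sumD_congr (fun v z => Finsupp.ext fun x => ?_) a
      exact (e.nat (π.comp (f v)) π (f v) rfl (hf v) z x).symm
    · exact Finsupp.ext fun x => hde _ _ _ hπ _ x
  -- exactness
  have s1 : ∀ c, ∃ b, ggX X β (kj f π) b = c := by
    intro c
    obtain ⟨a, u, h⟩ := surj_X (X := X) (u := fun v => E'.hom (kj f π v)) (k := β.hom _) hβ.1 c
    exact ⟨(a, u), h⟩
  have s4 : ∀ c, ∃ b, ggX X α (kj f π) b = c := by
    intro c
    obtain ⟨a, u, h⟩ := surj_X (X := X) (u := fun v => E.hom (kj f π v)) (k := α.hom _) hα.1 c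
    exact ⟨(a, u), h⟩
  have s2 : ∀ c, ∃ b, gg β (kj f π) b = c := by
    intro c
    obtain ⟨a, u, h⟩ := hβ.1 c
    exact ⟨(a, u), h⟩
  have x2 : ∀ b, gg β (kj f π) b = 0 → ∃ a, ff β (kj f π) a = b := by
    rintro ⟨a, u⟩ h
    obtain ⟨b, h1, h2⟩ := hβ.exact a u h
    exact ⟨b, Prod.ext h1 h2⟩
  have x5 : ∀ b, gg α (kj f π) b = 0 → ∃ a, ff α (kj f π) a = b := by
    rintro ⟨a, u⟩ h
    obtain ⟨b, h1, h2⟩ := hα.exact a u h
    exact ⟨b, Prod.ext h1 h2⟩
  have x4 : ∀ b, ggX X α (kj f π) b = 0 → ∃ a, ffX X α (kj f π) a = b := by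
    rintro ⟨a, u⟩ h
    obtain ⟨b, h1, h2⟩ := exact_X (A := fun v => E.obj (π.comp (f v)).ker)
      (B := fun v => H.obj (π.comp (f v)).ker) (u := fun v => E.hom (kj f π v))
      (k := α.hom π.ker) (w := fun v => α.hom (π.comp (f v)).ker)
      (z := fun v => -(H.hom (kj f π v))) hα.exact a u h
    exact ⟨b, Prod.ext h1 h2⟩
  have i5 : ∀ a, ff α (kj f π) a = 0 → a = 0 := by
    intro a ha
    refine mapD_ext fun v => hP v ?_
    have h1 := DFunLike.congr_fun (congrArg Prod.fst ha) v
    exact h1.trans (α.app_zero _).symm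
  have i6 : ∀ a, ff α f a = 0 → a = 0 := by
    intro a ha
    refine mapD_ext fun v => hL v ?_
    have h1 := DFunLike.congr_fun (congrArg Prod.fst ha) v
    exact h1.trans (α.app_zero _).symm
  constructor
  · have key := chase_surj (a45 := a45) (a56 := a56) (b23 := b23) (b34 := b34) (b45 := b45)
      (b56 := b56) (c23 := E'.hom π.ker.subtype) (c34 := e.d π) (c45 := wang E π t)
      (f4 := ffX X α (kj f π)) (f5 := ff α (kj f π)) (f6 := ff α f) (g2 := gg β (kj f π))
      (g3 := gg β f) (g4 := ggX X α (kj f π)) (g5 := gg α (kj f π))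
      (exD (u := fun v => wang H (π.comp (f v)) (s v))
        (w := fun v => H.hom (π.comp (f v)).ker.subtype)
        fun v b hb => (hcH _ _ _ _ (hf v) (hs v) b).1 hb)
      (by
        rintro ⟨a, c⟩ hb
        obtain ⟨a', ha'⟩ := exD (u := fun v => e.d (π.comp (f v)))
          (w := fun v => wang E (π.comp (f v)) (s v))
          (fun v b hb => (e.ex2 _ _ (hf v) (hs v) b).1 hb) a (congrArg Prod.fst hb)
        obtain ⟨c', hc'⟩ := (d.ex2 _ _ hπ ht c).1 (congrArg Prod.snd hb)
        exact ⟨(a', c'), Prod.ext ha' hc'⟩)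
      (by
        rintro ⟨a, c⟩
        refine Prod.ext (mapD_ext fun v => ?_) ?_
        · exact (hcE _ _ _ _ (hf v) (hs v) _).2 ⟨_, rfl⟩
        · exact (hcH _ _ _ _ hπ ht _).2 ⟨_, rfl⟩)
      (fun c => (e.ex2 _ _ hπ ht _).2 ⟨_, rfl⟩)
      (fun c hc => (e.ex1 _ hπ c).1 hc)
      q45 q56 r34 r45 r23 (ggX_ffX α _) s4 s2 x5 i6
    intro c
    obtain ⟨⟨a, u⟩, h⟩ := key c
    exact ⟨a, u, h⟩
  · have key := chase_exact (a23 := a23) (a34 := a34) (a45 := a45) (b12 := b12) (b23 := b23)
      (b34 := b34) (b45 := b45) (c12 := wang E' π t) (c23 := E'.hom π.ker.subtype) (c34 := e.d π)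
      (f2 := ff β (kj f π)) (f3 := ff β f) (f4 := ffX X α (kj f π)) (f5 := ff α (kj f π))
      (g1 := ggX X β (kj f π)) (g2 := gg β (kj f π)) (g3 := gg β f) (g4 := ggX X α (kj f π))
      (exD (u := fun v => d.d (π.comp (f v))) (w := fun v => wang H (π.comp (f v)) (s v))
        fun v b hb => (d.ex2 _ _ (hf v) (hs v) b).1 hb)
      (by
        rintro ⟨a, c⟩
        refine Prod.ext (mapD_ext fun v => ?_) ?_
        · exact (e.ex2 _ _ (hf v) (hs v) _).2 ⟨_, rfl⟩
        · exact (d.ex2 _ _ hπ ht _).2 ⟨_, rfl⟩)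
      (by
        rintro ⟨a, c⟩ hb
        obtain ⟨a', ha'⟩ := exD (u := fun v => E'.hom (π.comp (f v)).ker.subtype)
          (w := fun v => e.d (π.comp (f v)))
          (fun v b hb => (e.ex1 _ (hf v) b).1 hb) a (congrArg Prod.fst hb)
        obtain ⟨c', hc'⟩ := (d.ex1 _ hπ c).1 (congrArg Prod.snd hb)
        exact ⟨(a', c'), Prod.ext ha' hc'⟩)
      (by
        rintro ⟨a, c⟩
        refine Prod.ext (mapD_ext fun v => ?_) ?_
        · exact (hcE' _ _ _ _ (hf v) (hs v) _).2 ⟨_, rfl⟩
        · exact (hcH' _ _ _ _ hπ ht _).2 ⟨_, rfl⟩)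
      (fun c hc => (hcE' _ _ _ _ hπ ht c).1 hc)
      q23 q34 q45 r12 r23 r34 (gg_ff β _) x4 i5 s1 x2
    intro a u h
    obtain ⟨b, hb⟩ := key (a, -u) (by
      change sm E' f a + β.app M (-u) = 0
      rw [β.app_neg, h, add_neg_cancel])
    refine ⟨b, ?_, fun v => DFunLike.congr_fun (congrArg Prod.fst hb) v⟩
    have h1 : sumD (fun v => -(H'.hom (f v))) b = -u := congrArg Prod.snd hb
    have h2 := hom_sumD (-(AddMonoidHom.id (H'.obj M))) (fun v => H'.hom (f v)) b
    have h3 : -(sm H' f b) = -u := h2.trans h1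
    exact neg_injective h3

end step

end Pool.Agent.Q105.NV
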